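import Pool.Agent.Lib_helper32.FSMain

/-! # The Born expansion for a finite-dimensional family of potentials

For `V x = ∑ i, x i • V i` the `n`-th Born coefficient is a homogeneous polynomial of degree
`n + 1` in `x`, with coefficients that have full power expansions in `h`. -/

open MeasureTheory Filter Complex Set Topology
open scoped Real SchwartzMap LineDeriv ContDiff NNReal FourierTransform RealInnerProductSpace

namespace FracScat

section

variable {E : Type} [NormedAddCommGroup E] [InnerProductSpace ℝ E] [FiniteDimensional ℝ E]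
  [MeasurableSpace E] [BorelSpace E]

lemma Jfun_lin {X : Type} [NormedAddCommGroup X] [NormedSpace ℝ X] [FiniteDimensional ℝ X]
    [MeasurableSpace X] [BorelSpace X] (μ : Measure X) [μ.IsAddHaarMeasure]
    {ι : Type} [Fintype ι] {s h t : ℝ} (e : E) (P : ι → X →L[ℝ] E) {ε : ι → ℝ}
    (hs : 1 / 2 < s) (hh : 0 < h) (hh1 : 2 * s * h ≤ 1)
    (ht : 0 ≤ t) (ht1 : t ≤ 1) (hε : ∀ j, 0 < ε j) {r : ℕ} (c : Fin r → ℂ) (F : Fin r → 𝓢(X, ℂ)) :
    Jfun μ s e P h ε (∑ i, c i • F i) t = ∑ i, c i * Jfun μ s e P h ε (F i) t := by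
  unfold Jfun
  simp_rw [← integral_const_mul]
  rw [← integral_finsetSum _ (fun l _ => (integrable_GQ_eps μ e P hs hh hh1 ht ht1 hε
      (F l)).const_mul _)]
  refine integral_congr_ae (Eventually.of_forall fun x => ?_)
  simp only [sum_apply, smul_apply, smul_eq_mul]
  rw [Finset.sum_mul]
  exact Finset.sum_congr rfl fun l _ => by ring

lemma Ifun_lin {X : Type} [NormedAddCommGroup X] [NormedSpace ℝ X] [FiniteDimensional ℝ X]
    [MeasurableSpace X] [BorelSpace X] (μ : Measure X) [μ.IsAddHaarMeasure]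
    {ι : Type} [Fintype ι] {s h : ℝ} {e : E} (he : ‖e‖ = 1) (P : ι → X →L[ℝ] E) {v : X}
    (hv : ∀ j, P j v = e)
    (hs : 1 / 2 < s) (hh : 0 < h) (hh1 : 2 * s * h ≤ 1)
    {r : ℕ} (c : Fin r → ℂ) (F : Fin r → 𝓢(X, ℂ)) :
    Ifun μ s e P v h 0 (Fintype.card ι) (∑ i, c i • F i)
      = ∑ i, c i * Ifun μ s e P v h 0 (Fintype.card ι) (F i) := by
  have h1 := tendsto_Jfun_zero μ he P hv hs hh hh1 (∑ i, c i • F i) (le_refl (Fintype.card ι))
  have h2 : Tendsto (fun ε => ∑ i, c i * Jfun μ s e P h ε (F i) 0) (epsFilter ι)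
      (𝓝 (∑ i, c i * Ifun μ s e P v h 0 (Fintype.card ι) (F i))) := by
    apply tendsto_finsetSum
    intro i _
    exact (tendsto_Jfun_zero μ he P hv hs hh hh1 (F i) (le_refl (Fintype.card ι))).const_mul _
  refine tendsto_nhds_unique h1 (h2.congr' ?_)
  filter_upwards [self_mem_nhdsWithin] with ε hε
  exact (Jfun_lin μ e P hs hh hh1 le_rfl zero_le_one hε c F).symm

/-- splitting off the first index of a word -/
lemma sum_word {r n : ℕ} (f : (Fin (n + 1) → Fin r) → ℂ) :
    ∑ w : Fin (n + 1) → Fin r, f w = ∑ i : Fin r, ∑ w : Fin n → Fin r, f (Fin.cons i w) := by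
  rw [← (Fin.consEquiv (fun _ => Fin r)).sum_comp, Fintype.sum_prod_type]
  rfl

/-- monomial attached to a word -/
noncomputable def wmon {r n : ℕ} (x : Fin r → ℂ) (w : Fin n → Fin r) : ℂ := ∏ k, x (w k)

lemma wmon_cons {r n : ℕ} (x : Fin r → ℂ) (i : Fin r) (w : Fin n → Fin r) :
    wmon x (Fin.cons i w : Fin (n + 1) → Fin r) = x i * wmon x w := by
  unfold wmon
  rw [Fin.prod_univ_succ]
  simp

theorem born_family {s : ℝ} {e : E} {r : ℕ} (V G : Fin r → 𝓢(E, ℂ)) {h₀ : ℝ} {m : ℝ → ℂ}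
    {τ : ℝ → ℝ} (hs : 1 / 2 < s) (he : ‖e‖ = 1) (h₀le : h₀ ≤ 1 / (2 * s))
    (hpow : ∀ J, HasPow h₀ J (fun h => ((τ h : ℝ) : ℂ)))
    {A : ℝ} (hA : 0 ≤ A) (hτA : ∀ h, 0 < h → h ≤ h₀ → |τ h| ≤ A * h) (N : ℕ) :
    ∀ (X : Type) [NormedAddCommGroup X] [NormedSpace ℝ X] [FiniteDimensional ℝ X]
      [MeasurableSpace X] [BorelSpace X] (μ : Measure X) [μ.IsAddHaarMeasure]
      (ι : Type) [Fintype ι] (P : ι → X →L[ℝ] E) (v : X) (_ : ∀ j, P j v = e) (η : X →L[ℝ] E)
      (F : 𝓢(X, ℂ)), ∃ γ : (n : ℕ) → (Fin (n + 1) → Fin r) → ℝ → ℂ,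
        (∀ n w J, HasPow h₀ J (γ n w)) ∧
        ∀ (x : Fin r → ℂ) (h₁ : ℝ) (g : ℝ → E → ℂ), h₁ ≤ h₀ →
          UBdd (fun h : Ioc (0 : ℝ) h₁ => g h) →
          (∀ h, 0 < h → h ≤ h₁ →
            BornEq s e h (∑ i, x i • V i) (m h) (fun ξ => (∑ i, x i • G i) (ξ + τ h • e)) (g h)) →
          ∃ C, 0 ≤ C ∧ ∀ h, 0 < h → h ≤ h₁ →
            ‖Ifun μ s e P v h 0 (Fintype.card ι) (SchwartzMap.smulLeftCLM ℂ (fun x => g h (η x)) F)
              - ∑ n ∈ Finset.range N, (m h) ^ n * ∑ w : Fin (n + 1) → Fin r, wmon x w * γ n w h‖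
              ≤ C * ‖m h‖ ^ N := by
  have hh0 : 1 / (2 * s) ≤ 1 := by
    rw [div_le_one (by linarith)]; linarith
  have hcond : ∀ h, 0 < h → h ≤ h₀ → 2 * s * h ≤ 1 := by
    intro h hh hh1
    have := hh1.trans h₀le
    rw [le_div_iff₀ (by linarith)] at this
    linarith
  induction N with
  | zero =>
    intro X _ _ _ _ _ μ _ ι _ P v hv η F
    refine ⟨fun _ _ _ => 0, fun n w J => hasPow_const 0, fun x h₁ g hle hg _ => ?_⟩
    obtain ⟨C, hC0, hC⟩ := ((bddFam_const (α := Ioc (0 : ℝ) h₁) F).mulU (hg.comp_clm η)).N1 μ v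
      (Fintype.card ι + 1)
    refine ⟨2 ^ (Fintype.card ι) * C, by positivity, fun h hh hh1 => ?_⟩
    simp only [Finset.range_zero, Finset.sum_empty, sub_zero, pow_zero, mul_one]
    refine (norm_Ifun_le μ e P v hs hh (hcond h hh (hh1.trans hle)) (fun _ => le_rfl) _
      le_rfl).trans ?_
    gcongr
    exact hC ⟨h, hh, hh1⟩ h hh.le ((hh1.trans hle).trans (h₀le.trans hh0))
  | succ N ih =>
    intro X _ _ _ _ _ μ _ ι _ P v hv η F
    have hv' : ∀ o, nextP P o (v, e) = e := by
      rintro (_ | j)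
      · rfl
      · exact hv j
    choose γ hγ H using fun i : Fin r => ih (X × E) (μ.prod volume) (Option ι) (nextP P) (v, e) hv'
      (ContinuousLinearMap.snd ℝ X E) (nextF F (V i) η)
    refine ⟨fun n => Nat.rec (motive := fun n => (Fin (n + 1) → Fin r) → ℝ → ℂ)
      (fun w h => Ifun μ s e P v h 0 (Fintype.card ι) (Ftau F (G (w 0)) η e (τ h)))
      (fun n _ w => γ (w 0) n (fun k => w k.succ)) n, fun n w J => ?_,
      fun x h₁ g hle hg hborn => ?_⟩
    · cases n with
      | zero => exact hasPow_Ifun_tau μ he P hv hs F (G (w 0)) η h₀le (hpow J) hA hτA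
      | succ n => exact hγ _ _ _ J
    · choose C hC0 hC using fun i : Fin r => H i x h₁ g hle hg hborn
      refine ⟨∑ i, ‖x i‖ * C i, Finset.sum_nonneg fun i _ => mul_nonneg (norm_nonneg _) (hC0 i),
        fun h hh hh1 => ?_⟩
      have hc := hcond h hh (hh1.trans hle)
      have hgh : UBdd (fun _ : Unit => g h) := hg.reindex (fun _ : Unit => ⟨h, hh, hh1⟩)
      have hΓh : UBdd (fun _ : Unit => fun ξ => (∑ i, x i • G i) (ξ + τ h • e)) :=
        uBdd_translate (∑ i, x i • G i) (fun _ : Unit => τ h • e)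
      obtain ⟨C', hC'0, hC'⟩ := conv_bound (E := E) hs he
      obtain ⟨B0, hB00, hB0⟩ := hgh.2 0
      obtain ⟨B1, hB10, hB1⟩ := hgh.2 1
      obtain ⟨B2, hB20, hB2⟩ := hgh.2 2
      have hBB : ∀ i ≤ 2, ∀ x, ‖iteratedFDeriv ℝ i (g h) x‖ ≤ B0 + B1 + B2 := by
        intro i hi x
        interval_cases i
        · linarith [hB0 () x]
        · linarith [hB1 () x]
        · linarith [hB2 () x]
      have hrec := Ifun_rec μ he P hv hs hh hc (∑ i, x i • V i) hΓh hgh (hborn h hh hh1)
        (fun η ε hε => hC' h ε hh hc hε (∑ i, x i • V i) (g h) hgh _ hBB η) η F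
      have e1 : SchwartzMap.smulLeftCLM ℂ (fun y => (∑ i, x i • G i) (η y + τ h • e)) F
          = ∑ i, x i • Ftau F (G i) η e (τ h) := by
        ext y
        have h1 : (SchwartzMap.smulLeftCLM ℂ (fun y => (∑ i, x i • G i) (η y + τ h • e)) F) y
            = Ftau F (∑ i, x i • G i) η e (τ h) y := rfl
        rw [h1, Ftau_apply]
        simp only [sum_apply, smul_apply, smul_eq_mul, Ftau_apply]
        rw [Finset.sum_mul]
        exact Finset.sum_congr rfl fun i _ => by ring
      have hg2 : Function.HasTemperateGrowth (fun p : X × E => g h p.2) :=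
        (hgh.comp_clm (ContinuousLinearMap.snd ℝ X E)).tg ()
      have e2 : SchwartzMap.smulLeftCLM ℂ (fun p : X × E => g h p.2) (nextF F (∑ i, x i • V i) η)
          = ∑ i, x i • SchwartzMap.smulLeftCLM ℂ (fun p : X × E => g h p.2) (nextF F (V i) η) := by
        ext p
        simp only [sum_apply, smul_apply, smul_eq_mul, SchwartzMap.smulLeftCLM_apply_apply hg2,
          nextF_apply]
        rw [Finset.mul_sum, Finset.mul_sum]
        exact Finset.sum_congr rfl fun i _ => by ring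
      rw [hrec, e1, e2, Ifun_lin μ he P hv hs hh hc, Ifun_lin (μ.prod volume) he (nextP P) hv' hs hh hc]
      rw [Finset.sum_range_succ']
      have e3 : ∑ w : Fin (0 + 1) → Fin r, wmon x w *
          Ifun μ s e P v h 0 (Fintype.card ι) (Ftau F (G (w 0)) η e (τ h))
          = ∑ i, x i * Ifun μ s e P v h 0 (Fintype.card ι) (Ftau F (G i) η e (τ h)) := by
        rw [sum_word]
        refine Finset.sum_congr rfl fun i _ => ?_
        rw [Fintype.sum_unique, wmon_cons]
        simp [wmon]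
      have e4 : ∀ n, ∑ w : Fin (n + 1 + 1) → Fin r, wmon x w * γ (w 0) n (fun k => w k.succ) h
          = ∑ i, x i * ∑ w : Fin (n + 1) → Fin r, wmon x w * γ i n w h := by
        intro n
        rw [sum_word]
        refine Finset.sum_congr rfl fun i _ => ?_
        rw [Finset.mul_sum]
        refine Finset.sum_congr rfl fun w _ => ?_
        rw [wmon_cons]
        simp only [Fin.cons_zero, Fin.cons_succ]
        ring
      simp only [pow_zero, one_mul]
      erw [e3]
      simp_rw [e4]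
      have e5 : ∑ i, x i * Ifun μ s e P v h 0 (Fintype.card ι) (Ftau F (G i) η e (τ h))
          + m h * ∑ i, x i * Ifun (μ.prod volume) s e (nextP P) (v, e) h 0
              (Fintype.card (Option ι))
              (SchwartzMap.smulLeftCLM ℂ (fun p : X × E => g h p.2) (nextF F (V i) η))
          - (∑ n ∈ Finset.range N, m h ^ (n + 1) *
              ∑ i, x i * ∑ w : Fin (n + 1) → Fin r, wmon x w * γ i n w h
            + ∑ i, x i * Ifun μ s e P v h 0 (Fintype.card ι) (Ftau F (G i) η e (τ h)))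
          = m h * ∑ i, x i * (Ifun (μ.prod volume) s e (nextP P) (v, e) h 0
              (Fintype.card (Option ι))
              (SchwartzMap.smulLeftCLM ℂ (fun p : X × E => g h p.2) (nextF F (V i) η))
            - ∑ n ∈ Finset.range N, m h ^ n *
                ∑ w : Fin (n + 1) → Fin r, wmon x w * γ i n w h) := by
        simp_rw [mul_sub, Finset.sum_sub_distrib]
        rw [mul_sub]
        have h6 : ∑ n ∈ Finset.range N, m h ^ (n + 1) *
              ∑ i, x i * ∑ w : Fin (n + 1) → Fin r, wmon x w * γ i n w h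
            = m h * ∑ i, x i * ∑ n ∈ Finset.range N, m h ^ n *
                ∑ w : Fin (n + 1) → Fin r, wmon x w * γ i n w h := by
          simp_rw [Finset.mul_sum]
          rw [Finset.sum_comm]
          refine Finset.sum_congr rfl fun i _ => ?_
          refine Finset.sum_congr rfl fun n _ => ?_
          refine Finset.sum_congr rfl fun w _ => ?_
          ring
        rw [h6]
        ring
      rw [e5, norm_mul, pow_succ]
      calc ‖m h‖ * ‖∑ i, x i * (Ifun (μ.prod volume) s e (nextP P) (v, e) h 0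
              (Fintype.card (Option ι))
              (SchwartzMap.smulLeftCLM ℂ (fun p : X × E => g h p.2) (nextF F (V i) η))
            - ∑ n ∈ Finset.range N, m h ^ n *
                ∑ w : Fin (n + 1) → Fin r, wmon x w * γ i n w h)‖
          ≤ ‖m h‖ * ∑ i, ‖x i‖ * (C i * ‖m h‖ ^ N) := by
            gcongr
            refine (norm_sum_le _ _).trans (Finset.sum_le_sum fun i _ => ?_)
            rw [norm_mul]
            gcongr
            exact hC i h hh hh1
        _ = (∑ i, ‖x i‖ * C i) * (‖m h‖ ^ N * ‖m h‖) := by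
            rw [Finset.mul_sum, Finset.sum_mul]
            exact Finset.sum_congr rfl fun i _ => by ring

/-- Expansion of the amplitude `g h 0` for a family. The word of length `1` is the linear term. -/
theorem amp_family {s : ℝ} {e : E} {r : ℕ} (V G : Fin r → 𝓢(E, ℂ)) {h₀ : ℝ} {m : ℝ → ℂ}
    {τ : ℝ → ℝ} (hs : 1 / 2 < s) (he : ‖e‖ = 1) (h₀le : h₀ ≤ 1 / (2 * s))
    (hpow : ∀ J, HasPow h₀ J (fun h => ((τ h : ℝ) : ℂ)))
    {A : ℝ} (hA : 0 ≤ A) (hτA : ∀ h, 0 < h → h ≤ h₀ → |τ h| ≤ A * h) (N : ℕ) :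
    ∃ γ : (n : ℕ) → (Fin (n + 1) → Fin r) → ℝ → ℂ,
      (∀ n w J, n ≠ 0 → HasPow h₀ J (γ n w)) ∧ (∀ w h, γ 0 w h = G (w 0) (τ h • e)) ∧
      ∀ (x : Fin r → ℂ) (h₁ : ℝ) (g : ℝ → E → ℂ), h₁ ≤ h₀ →
        UBdd (fun h : Ioc (0 : ℝ) h₁ => g h) →
        (∀ h, 0 < h → h ≤ h₁ →
          BornEq s e h (∑ i, x i • V i) (m h) (fun ξ => (∑ i, x i • G i) (ξ + τ h • e)) (g h)) →
        ∃ C, 0 ≤ C ∧ ∀ h, 0 < h → h ≤ h₁ →
          ‖g h 0 - ∑ n ∈ Finset.range (N + 1), (m h) ^ n *
              ∑ w : Fin (n + 1) → Fin r, wmon x w * γ n w h‖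
            ≤ C * ‖m h‖ ^ (N + 1) := by
  have hcond : ∀ h, 0 < h → h ≤ h₀ → 2 * s * h ≤ 1 := by
    intro h hh hh1
    have := hh1.trans h₀le
    rw [le_div_iff₀ (by linarith)] at this
    linarith
  set Vn : Fin r → 𝓢(E, ℂ) := fun i => SchwartzMap.compCLMOfContinuousLinearEquiv ℂ
    (ContinuousLinearEquiv.neg ℝ (M := E)) (V i) with hVn
  have hVnx : ∀ i ξ, Vn i ξ = V i (0 - ξ) := by
    intro i ξ; rw [hVn]; simp
  choose γ hγ H using fun i : Fin r => born_family (m := m) V G hs he h₀le hpow hA hτA N E volume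
    Unit (fun _ => ContinuousLinearMap.id ℝ E) e (fun _ => rfl) (ContinuousLinearMap.id ℝ E) (Vn i)
  refine ⟨fun n => Nat.rec (motive := fun n => (Fin (n + 1) → Fin r) → ℝ → ℂ)
      (fun w h => G (w 0) (τ h • e))
      (fun n _ w => γ (w 0) n (fun k => w k.succ)) n, fun n w J hn => ?_, fun w h => rfl,
      fun x h₁ g hle hg hborn => ?_⟩
  · cases n with
    | zero => exact absurd rfl hn
    | succ n => exact hγ _ _ _ J
  choose C hC0 hC using fun i : Fin r => H i x h₁ g hle hg hborn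
  refine ⟨∑ i, ‖x i‖ * C i, Finset.sum_nonneg fun i _ => mul_nonneg (norm_nonneg _) (hC0 i),
    fun h hh hh1 => ?_⟩
  have hc := hcond h hh (hh1.trans hle)
  obtain ⟨ℓ, hℓ1, hℓ2⟩ := hborn h hh hh1 0
  have hgh : UBdd (fun _ : Unit => g h) := hg.reindex (fun _ : Unit => ⟨h, hh, hh1⟩)
  have hlim := tendsto_Jfun_zero (volume : Measure E) (ι := Unit) he
    (fun _ => ContinuousLinearMap.id ℝ E) (v := e) (fun _ => rfl) hs hh hc
    (∑ i, x i • SchwartzMap.smulLeftCLM ℂ (fun x => g h x) (Vn i)) (le_refl (Fintype.card Unit))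
  have hmap : Tendsto (fun ε : ℝ => (fun _ : Unit => ε)) (𝓝[>] 0) (epsFilter Unit) := by
    apply tendsto_nhdsWithin_iff.mpr
    constructor
    · rw [tendsto_pi_nhds]
      intro _
      exact tendsto_id.mono_left nhdsWithin_le_nhds
    · filter_upwards [self_mem_nhdsWithin] with ε hε _
      exact hε
  have h2 := hlim.comp hmap
  have h3 : ∀ ε : ℝ, Jfun volume s e (fun _ : Unit => ContinuousLinearMap.id ℝ E) h
      (fun _ => ε) (∑ i, x i • SchwartzMap.smulLeftCLM ℂ (fun x => g h x) (Vn i)) 0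
      = ∫ ξ, ((∑ i, x i • V i) (0 - ξ) * g h ξ) * qker s e h 0 ε ξ := by
    intro ε
    simp only [Jfun, Qker, Finset.univ_unique, Finset.prod_singleton,
      ContinuousLinearMap.id_apply]
    refine integral_congr_ae (Eventually.of_forall fun ξ => ?_)
    simp only [sum_apply, smul_apply, smul_eq_mul,
      SchwartzMap.smulLeftCLM_apply_apply (hgh.tg ()), hVnx]
    congr 1
    rw [Finset.sum_mul]
    exact Finset.sum_congr rfl fun i _ => by ring
  have h4 : ℓ = ∑ i, x i * Ifun volume s e (fun _ : Unit => ContinuousLinearMap.id ℝ E) e h 0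
      (Fintype.card Unit) (SchwartzMap.smulLeftCLM ℂ (fun x => g h x) (Vn i)) := by
    rw [← Ifun_lin volume he (fun _ : Unit => ContinuousLinearMap.id ℝ E) (fun _ => rfl) hs hh hc]
    refine tendsto_nhds_unique hℓ1 (h2.congr fun ε => ?_)
    exact h3 ε
  have h5 := fun i => hC i h hh hh1
  simp only [ContinuousLinearMap.id_apply] at h5
  rw [Finset.sum_range_succ']
  have e3 : ∑ w : Fin (0 + 1) → Fin r, wmon x w * G (w 0) (τ h • e)
      = (∑ i, x i • G i) (τ h • e) := by
    rw [sum_word]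
    simp only [sum_apply, smul_apply, smul_eq_mul]
    refine Finset.sum_congr rfl fun i _ => ?_
    rw [Fintype.sum_unique, wmon_cons]
    simp [wmon]
  have e4 : ∀ n, ∑ w : Fin (n + 1 + 1) → Fin r, wmon x w * γ (w 0) n (fun k => w k.succ) h
      = ∑ i, x i * ∑ w : Fin (n + 1) → Fin r, wmon x w * γ i n w h := by
    intro n
    rw [sum_word]
    refine Finset.sum_congr rfl fun i _ => ?_
    rw [Finset.mul_sum]
    refine Finset.sum_congr rfl fun w _ => ?_
    rw [wmon_cons]
    simp only [Fin.cons_zero, Fin.cons_succ]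
    ring
  simp only [pow_zero, one_mul]
  erw [e3]
  simp_rw [e4]
  simp only [zero_add] at hℓ2
  have e5 : g h 0 - (∑ n ∈ Finset.range N, m h ^ (n + 1) *
              ∑ i, x i * ∑ w : Fin (n + 1) → Fin r, wmon x w * γ i n w h
            + (∑ i, x i • G i) (τ h • e))
      = m h * ∑ i, x i * (Ifun volume s e (fun _ : Unit => ContinuousLinearMap.id ℝ E) e h 0
          (Fintype.card Unit) (SchwartzMap.smulLeftCLM ℂ (fun x => g h x) (Vn i))
            - ∑ n ∈ Finset.range N, m h ^ n *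
                ∑ w : Fin (n + 1) → Fin r, wmon x w * γ i n w h) := by
    rw [hℓ2, h4]
    simp_rw [mul_sub, Finset.sum_sub_distrib]
    rw [mul_sub]
    have h6 : ∑ n ∈ Finset.range N, m h ^ (n + 1) *
              ∑ i, x i * ∑ w : Fin (n + 1) → Fin r, wmon x w * γ i n w h
            = m h * ∑ i, x i * ∑ n ∈ Finset.range N, m h ^ n *
                ∑ w : Fin (n + 1) → Fin r, wmon x w * γ i n w h := by
      simp_rw [Finset.mul_sum]
      rw [Finset.sum_comm]
      refine Finset.sum_congr rfl fun i _ => ?_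
      refine Finset.sum_congr rfl fun n _ => ?_
      refine Finset.sum_congr rfl fun w _ => ?_
      ring
    rw [h6]
    ring
  rw [e5, norm_mul, pow_succ]
  calc ‖m h‖ * ‖∑ i, x i * (Ifun volume s e (fun _ : Unit => ContinuousLinearMap.id ℝ E) e h 0
          (Fintype.card Unit) (SchwartzMap.smulLeftCLM ℂ (fun x => g h x) (Vn i))
            - ∑ n ∈ Finset.range N, m h ^ n *
                ∑ w : Fin (n + 1) → Fin r, wmon x w * γ i n w h)‖
      ≤ ‖m h‖ * ∑ i, ‖x i‖ * (C i * ‖m h‖ ^ N) := by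
        gcongr
        refine (norm_sum_le _ _).trans (Finset.sum_le_sum fun i _ => ?_)
        rw [norm_mul]
        gcongr
        exact h5 i
    _ = (∑ i, ‖x i‖ * C i) * (‖m h‖ ^ N * ‖m h‖) := by
        rw [Finset.mul_sum, Finset.sum_mul]
        exact Finset.sum_congr rfl fun i _ => by ring

end

end FracScat
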