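import Pool.Agent.Lib_helper85.FA.A1
import Pool.Agent.Lib_helper32.FSUniq

/-! # Families: the expansion of the difference of two data sets -/

open MeasureTheory Filter Complex Set Topology
open scoped Real SchwartzMap LineDeriv ContDiff NNReal FourierTransform RealInnerProductSpace

namespace FracScat

section

variable {E : Type} [NormedAddCommGroup E] [InnerProductSpace ℝ E] [FiniteDimensional ℝ E]
  [MeasurableSpace E] [BorelSpace E]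

/-- The potentials `V`, `V'` have the same amplitudes in the direction `e`, for all large wave
numbers and all incident directions near `e`. -/
def SameData (s : ℝ) (e : E) (V V' : E → ℂ) : Prop :=
  ∃ k₀ δ : ℝ, 0 < δ ∧ ∀ k : ℝ, k₀ < k → ∀ θ : E, ‖θ‖ = 1 → ‖θ - e‖ < δ →
    ∀ u u' : E → ℂ, IsTotalField s k V θ u → IsTotalField s k V' θ u' →
      amplitude k V e u = amplitude k V' e u'

/-- a linear combination of Schwartz functions -/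
noncomputable def fam {r : ℕ} (V : Fin r → 𝓢(E, ℂ)) (x : Fin r → ℂ) : 𝓢(E, ℂ) := ∑ i, x i • V i

omit [FiniteDimensional ℝ E] [MeasurableSpace E] [BorelSpace E] in
lemma fam_apply {r : ℕ} (V : Fin r → 𝓢(E, ℂ)) (x : Fin r → ℂ) (z : E) :
    fam V x z = ∑ i, x i * V i z := by
  simp [fam, sum_apply]

lemma fourier_fam {r : ℕ} (V : Fin r → 𝓢(E, ℂ)) (x : Fin r → ℂ) :
    (𝓕 (fam V x) : 𝓢(E, ℂ)) = ∑ i, x i • (𝓕 (V i) : 𝓢(E, ℂ)) := by
  rw [fam, FourierTransform.fourier_sum]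
  refine Finset.sum_congr rfl fun i _ => ?_
  rw [FourierTransform.fourier_smul]

omit [FiniteDimensional ℝ E] [MeasurableSpace E] [BorelSpace E] in
lemma fam_compact {r : ℕ} {V : Fin r → 𝓢(E, ℂ)} (hV : ∀ i, HasCompactSupport (V i))
    (x : Fin r → ℂ) : HasCompactSupport (fam V x) := by
  refine HasCompactSupport.intro (K := ⋃ i, tsupport (V i)) (isCompact_iUnion fun i => hV i) ?_
  intro z hz
  rw [fam_apply]
  refine Finset.sum_eq_zero fun i _ => ?_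
  have h1 : z ∉ tsupport (V i) := fun h => hz (mem_iUnion.mpr ⟨i, h⟩)
  rw [image_eq_zero_of_notMem_tsupport h1, mul_zero]

/-- the range of `h` attached to `ξ'` -/
noncomputable def hz (s a : ℝ) : ℝ := min (1 / (2 * s)) (1 / (2 * (a + 1)))

lemma hz_pos {s a : ℝ} (hs : 1 / 2 < s) (ha : 0 ≤ a) : 0 < hz s a :=
  lt_min (by positivity) (by positivity)

lemma hz_le {s a : ℝ} : hz s a ≤ 1 / (2 * s) := min_le_left _ _

lemma hz_le_one {s a : ℝ} (hs : 1 / 2 < s) : hz s a ≤ 1 :=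
  hz_le.trans (by rw [div_le_one (by linarith)]; linarith)

lemma hz_sq {s a : ℝ} (hs : 1 / 2 < s) (ha : 0 ≤ a) : (hz s a) ^ 2 * a ^ 2 ≤ 1 / 2 := by
  have h0 := hz_pos hs ha
  have h3 : hz s a * a ≤ 1 / 2 := by
    calc hz s a * a ≤ 1 / (2 * (a + 1)) * a := by
          gcongr
          exact min_le_right _ _
      _ ≤ 1 / 2 := by
        rw [div_mul_eq_mul_div, div_le_div_iff₀ (by positivity) (by norm_num)]
        linarith
  have h4 : 0 ≤ hz s a * a := by positivity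
  nlinarith

/-- the full expansion of the amplitudes of a family -/
theorem family_amplitude {s : ℝ} (hs : 1 / 2 < s) {e : E} (he : ‖e‖ = 1) {r : ℕ}
    {V : Fin r → 𝓢(E, ℂ)} (hV : ∀ i, HasCompactSupport (V i)) (ξ' : E) (N : ℕ) :
    ∃ γ : (n : ℕ) → (Fin (n + 1) → Fin r) → ℝ → ℂ,
      (∀ n w J, HasPow (hz s ‖ξ'‖) J (γ n w)) ∧
      (∀ w h, γ 0 w h = (𝓕 (V (w 0)) : 𝓢(E, ℂ)) (ξ' + tauf ‖ξ'‖ h • e)) ∧
      ∀ (x : Fin r → ℂ) (h₁ : ℝ) (K : ℕ → ℝ) (u : ℝ → E → ℂ), h₁ ≤ hz s ‖ξ'‖ → (∀ i, 0 ≤ K i) →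
        (∀ h, 0 < h → h ≤ h₁ → IsTotalField s (2 * π / h) (fam V x) (thetaf e ξ' h) (u h)) →
        (∀ h, 0 < h → h ≤ h₁ →
          ContDiff ℝ ∞ (fun ξ => 𝓕 (fun y => fam V x y * u h y) (ξ + h⁻¹ • e)) ∧
          ∀ i ξ, ‖iteratedFDeriv ℝ i
            (fun ξ => 𝓕 (fun y => fam V x y * u h y) (ξ + h⁻¹ • e)) ξ‖ ≤ K i) →
        ∃ C, 0 ≤ C ∧ ∀ h, 0 < h → h ≤ h₁ →
          ‖amplitude (2 * π / h) (fam V x) e (u h)
            - ∑ n ∈ Finset.range (N + 1), ((mfun s h : ℝ) : ℂ) ^ n *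
              ∑ w : Fin (n + 1) → Fin r, wmon x w * γ n w h‖ ≤ C * (mfun s h) ^ (N + 1) := by
  have ha : (0 : ℝ) ≤ ‖ξ'‖ := norm_nonneg _
  have hpos := hz_pos hs ha
  have hle1 := hz_le_one (a := ‖ξ'‖) hs
  have hsm := hz_sq hs ha
  obtain ⟨γ, hγ, hγ0, H⟩ := amp_family (m := fun h => ((mfun s h : ℝ) : ℂ))
    (fun i => (𝓕 (V i) : 𝓢(E, ℂ))) (fun i => transl (𝓕 (V i) : 𝓢(E, ℂ)) ξ') hs he
    (hz_le (s := s) (a := ‖ξ'‖)) (fun J => hasPow_tauf hpos hle1 hsm J) (A := ‖ξ'‖ ^ 2)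
    (by positivity)
    (fun h hh _ => by rw [abs_of_nonneg (tauf_nonneg hh.le)]; exact tauf_upper hh.le) N
  have hγ0' : ∀ w h, γ 0 w h = (𝓕 (V (w 0)) : 𝓢(E, ℂ)) (ξ' + tauf ‖ξ'‖ h • e) := by
    intro w h
    rw [hγ0, transl_apply, add_comm (tauf ‖ξ'‖ h • e) ξ']
  refine ⟨γ, fun n w J => ?_, hγ0', fun x h₁ K u hle hK0 hu hK => ?_⟩
  · rcases Nat.eq_zero_or_pos n with rfl | hn
    · refine (hasPow_line (𝓕 (V (w 0)) : 𝓢(E, ℂ)) e ξ' hle1 J (hasPow_tauf hpos hle1 hsm J)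
        (A := ‖ξ'‖ ^ 2) (by positivity)
        (fun h hh _ => by rw [abs_of_nonneg (tauf_nonneg hh.le)]; exact tauf_upper hh.le)).congr
          fun h _ _ => hγ0' w h
    · exact hγ n w J hn.ne'
  · have hsm' : ∀ h, 0 < h → h ≤ h₁ → h ^ 2 * ‖ξ'‖ ^ 2 ≤ 1 := by
      intro h hh hle'
      have : h ^ 2 * ‖ξ'‖ ^ 2 ≤ (hz s ‖ξ'‖) ^ 2 * ‖ξ'‖ ^ 2 := by
        gcongr
        exact hle'.trans hle
      linarith
    have hUB : UBdd (fun h : Ioc (0 : ℝ) h₁ =>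
        (fun ξ => 𝓕 (fun y => fam V x y * u h y) (ξ + (h : ℝ)⁻¹ • e))) :=
      ⟨fun h => (hK h h.2.1 h.2.2).1, fun i => ⟨K i, hK0 i, fun h ξ => (hK h h.2.1 h.2.2).2 i ξ⟩⟩
    have hborn : ∀ h, 0 < h → h ≤ h₁ →
        BornEq s e h (∑ i, x i • (𝓕 (V i) : 𝓢(E, ℂ))) ((mfun s h : ℝ) : ℂ)
        (fun ξ => (∑ i, x i • transl (𝓕 (V i) : 𝓢(E, ℂ)) ξ') (ξ + tauf ‖ξ'‖ h • e))
        (fun ξ => 𝓕 (fun y => fam V x y * u h y) (ξ + h⁻¹ • e)) := by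
      intro h hh hle'
      have h1 := bornEq_of_totalField hh (e := e) (fam_compact hV x) (hu h hh hle')
      have e1 : (fun ξ => (∑ i, x i • transl (𝓕 (V i) : 𝓢(E, ℂ)) ξ') (ξ + tauf ‖ξ'‖ h • e))
          = fun η => (𝓕 (fam V x) : 𝓢(E, ℂ)) (η + h⁻¹ • (e - thetaf e ξ' h)) := by
        ext ξ
        rw [fourier_fam]
        simp only [sum_apply, smul_apply, smul_eq_mul, transl_apply]
        refine Finset.sum_congr rfl fun i _ => ?_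
        rw [shift_eq hh (hsm' h hh hle'), add_assoc]
      rw [e1, ← fourier_fam]
      exact h1
    obtain ⟨C, hC0, hC⟩ := H x h₁ _ hle hUB hborn
    refine ⟨C, hC0, fun h hh hle' => ?_⟩
    have h2 := hC h hh hle'
    rw [Complex.norm_real, Real.norm_of_nonneg (mfun_pos hh).le] at h2
    rw [amplitude_eq]
    exact h2

/-- If two members of a family have the same data, the difference of their expansions is small. -/
theorem same_expansion {s : ℝ} (hs : 1 / 2 < s) {e : E} (he : ‖e‖ = 1) {r : ℕ}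
    {V : Fin r → 𝓢(E, ℂ)} (hV : ∀ i, HasCompactSupport (V i)) {ξ' : E} (hperp : ⟪e, ξ'⟫ = 0)
    (N : ℕ) :
    ∃ γ : (n : ℕ) → (Fin (n + 1) → Fin r) → ℝ → ℂ,
      (∀ n w J, HasPow (hz s ‖ξ'‖) J (γ n w)) ∧
      (∀ w h, γ 0 w h = (𝓕 (V (w 0)) : 𝓢(E, ℂ)) (ξ' + tauf ‖ξ'‖ h • e)) ∧
      ∀ (x y : Fin r → ℂ), SameData s e (fam V x) (fam V y) →
        ∃ h₁, 0 < h₁ ∧ h₁ ≤ hz s ‖ξ'‖ ∧ ∃ C, 0 ≤ C ∧ ∀ h, 0 < h → h ≤ h₁ →
          ‖∑ n ∈ Finset.range (N + 1), ((mfun s h : ℝ) : ℂ) ^ n *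
              ∑ w : Fin (n + 1) → Fin r, (wmon x w - wmon y w) * γ n w h‖
            ≤ C * (mfun s h) ^ (N + 1) := by
  obtain ⟨γ, hγ, hγ0, H⟩ := family_amplitude hs he hV ξ' N
  refine ⟨γ, hγ, hγ0, fun x y hxy => ?_⟩
  obtain ⟨k₀, δ, hδ, hamp⟩ := hxy
  obtain ⟨a₁, ha₁, ha₁', K₁, hK₁0, hK₁⟩ := uniform_bound hs he (fam_compact hV x)
  obtain ⟨a₂, ha₂, ha₂', K₂, hK₂0, hK₂⟩ := uniform_bound hs he (fam_compact hV y)
  obtain ⟨b₁, hb₁, _, hex₁⟩ := exists_totalField hs he (fam_compact hV x)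
  obtain ⟨b₂, hb₂, _, hex₂⟩ := exists_totalField hs he (fam_compact hV y)
  have ha0 : (0 : ℝ) ≤ ‖ξ'‖ := norm_nonneg _
  set a := ‖ξ'‖ with ha
  set h₁ : ℝ := min (hz s a) (min (min a₁ a₂) (min (min b₁ b₂)
    (min (1 / (|k₀| + 1)) (δ / (a ^ 2 + a + 1))))) with hh₁
  have hh₁pos : 0 < h₁ := by
    refine lt_min (hz_pos hs ha0) (lt_min (lt_min ha₁ ha₂) (lt_min (lt_min hb₁ hb₂)
      (lt_min (by positivity) (by positivity))))
  have hc0 : h₁ ≤ hz s a := min_le_left _ _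
  have hc' : h₁ ≤ min (min a₁ a₂) (min (min b₁ b₂)
    (min (1 / (|k₀| + 1)) (δ / (a ^ 2 + a + 1)))) := min_le_right _ _
  have hc1 : h₁ ≤ a₁ := hc'.trans ((min_le_left _ _).trans (min_le_left _ _))
  have hc2 : h₁ ≤ a₂ := hc'.trans ((min_le_left _ _).trans (min_le_right _ _))
  have hc'' : h₁ ≤ min (min b₁ b₂) (min (1 / (|k₀| + 1)) (δ / (a ^ 2 + a + 1))) :=
    hc'.trans (min_le_right _ _)
  have hc3 : h₁ ≤ b₁ := hc''.trans ((min_le_left _ _).trans (min_le_left _ _))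
  have hc4 : h₁ ≤ b₂ := hc''.trans ((min_le_left _ _).trans (min_le_right _ _))
  have hc5 : h₁ ≤ 1 / (|k₀| + 1) := hc''.trans ((min_le_right _ _).trans (min_le_left _ _))
  have hc6 : h₁ ≤ δ / (a ^ 2 + a + 1) := hc''.trans ((min_le_right _ _).trans (min_le_right _ _))
  have hle1 : h₁ ≤ 1 := hc0.trans (hz_le_one hs)
  have hsm' : ∀ h, 0 < h → h ≤ h₁ → h ^ 2 * a ^ 2 ≤ 1 := by
    intro h hh hle'
    have h1 := hz_sq hs ha0
    have : h ^ 2 * a ^ 2 ≤ (hz s a) ^ 2 * a ^ 2 := by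
      gcongr
      exact hle'.trans hc0
    linarith
  have hk : ∀ h, 0 < h → h ≤ h₁ → k₀ < 2 * π / h := by
    intro h hh hle'
    have h3 : |k₀| + 1 ≤ 1 / h := by
      rw [le_div_iff₀ hh]
      have := hle'.trans hc5
      rw [le_div_iff₀ (by positivity)] at this
      linarith
    have h4 : 1 / h ≤ 2 * π / h := by
      gcongr
      linarith [Real.pi_gt_three]
    have := le_abs_self k₀
    linarith
  have hθ1 : ∀ h, 0 < h → h ≤ h₁ → ‖thetaf e ξ' h‖ = 1 := fun h hh hle' =>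
    norm_thetaf he hperp (hsm' h hh hle')
  have hθ2 : ∀ h, 0 < h → h ≤ h₁ → ‖thetaf e ξ' h - e‖ < δ := by
    intro h hh hle'
    have h3 := thetaf_sub he hh (hsm' h hh hle')
    have h4 : h ≤ 1 := hle'.trans hle1
    have h5 : h * (a ^ 2 + a + 1) ≤ δ := by
      have := hle'.trans hc6
      rwa [le_div_iff₀ (by positivity)] at this
    calc ‖thetaf e ξ' h - e‖ ≤ h * (a ^ 2 * h + a) := h3
      _ ≤ h * (a ^ 2 * 1 + a) := by gcongr
      _ < h * (a ^ 2 + a + 1) := by nlinarith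
      _ ≤ δ := h5
  have hu₁ : ∀ h : ℝ, ∃ u : E → ℂ, 0 < h → h ≤ h₁ →
      IsTotalField s (2 * π / h) (fam V x) (thetaf e ξ' h) u := by
    intro h
    by_cases hh : 0 < h ∧ h ≤ h₁
    · obtain ⟨u, hu⟩ := hex₁ h hh.1 (hh.2.trans hc3) (thetaf e ξ' h)
      exact ⟨u, fun _ _ => hu⟩
    · exact ⟨0, fun h1 h2 => absurd ⟨h1, h2⟩ hh⟩
  have hu₂ : ∀ h : ℝ, ∃ u : E → ℂ, 0 < h → h ≤ h₁ →
      IsTotalField s (2 * π / h) (fam V y) (thetaf e ξ' h) u := by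
    intro h
    by_cases hh : 0 < h ∧ h ≤ h₁
    · obtain ⟨u, hu⟩ := hex₂ h hh.1 (hh.2.trans hc4) (thetaf e ξ' h)
      exact ⟨u, fun _ _ => hu⟩
    · exact ⟨0, fun h1 h2 => absurd ⟨h1, h2⟩ hh⟩
  choose u₁ hu₁ using hu₁
  choose u₂ hu₂ using hu₂
  obtain ⟨C₁, hC₁0, hC₁⟩ := H x h₁ K₁ u₁ hc0 hK₁0 hu₁
    (fun h hh hle' => hK₁ h hh (hle'.trans hc1) _ _ (hu₁ h hh hle'))
  obtain ⟨C₂, hC₂0, hC₂⟩ := H y h₁ K₂ u₂ hc0 hK₂0 hu₂
    (fun h hh hle' => hK₂ h hh (hle'.trans hc2) _ _ (hu₂ h hh hle'))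
  refine ⟨h₁, hh₁pos, hc0, C₁ + C₂, by positivity, fun h hh hle' => ?_⟩
  have h3 := hC₁ h hh hle'
  have h4 := hC₂ h hh hle'
  have h5 := hamp _ (hk h hh hle') _ (hθ1 h hh hle') (hθ2 h hh hle') _ _
    (hu₁ h hh hle') (hu₂ h hh hle')
  have h6 : ∑ n ∈ Finset.range (N + 1), ((mfun s h : ℝ) : ℂ) ^ n *
              ∑ w : Fin (n + 1) → Fin r, (wmon x w - wmon y w) * γ n w h
      = (amplitude (2 * π / h) (fam V y) e (u₂ h)
            - ∑ n ∈ Finset.range (N + 1), ((mfun s h : ℝ) : ℂ) ^ n *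
              ∑ w : Fin (n + 1) → Fin r, wmon y w * γ n w h)
        - (amplitude (2 * π / h) (fam V x) e (u₁ h)
            - ∑ n ∈ Finset.range (N + 1), ((mfun s h : ℝ) : ℂ) ^ n *
              ∑ w : Fin (n + 1) → Fin r, wmon x w * γ n w h) := by
    rw [h5]
    simp_rw [sub_mul, Finset.sum_sub_distrib, mul_sub, Finset.sum_sub_distrib]
    ring
  rw [h6]
  refine (norm_sub_le _ _).trans ?_
  rw [add_mul]
  linarith

end

end FracScat
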