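import Pool.Agent.Lib_helper85.FA.A2

/-! # Extraction of one order -/

open MeasureTheory Filter Complex Set Topology
open scoped Real SchwartzMap LineDeriv ContDiff NNReal FourierTransform RealInnerProductSpace

namespace FracScat

/-- the exponent of the `j`-th term of the `n`-th Born order -/
noncomputable def bexp (s : ℝ) (p : ℕ × ℕ) : ℝ := (p.1 : ℝ) * (2 * s - 1) + p.2

/-- the pairs `(n, j)` whose exponent is `J` -/
noncomputable def coll (s : ℝ) (N J : ℕ) : Finset (ℕ × ℕ) :=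
  by classical exact (Finset.range (N + 1) ×ˢ Finset.range (J + 1)).filter (fun p => bexp s p = J)

theorem extract {s : ℝ} (hs : 1 / 2 < s) {h₁ : ℝ} (h₁pos : 0 < h₁)
    (h₁le : h₁ ≤ 1) (J N : ℕ) (hN : (J : ℝ) < ((N + 1 : ℕ) : ℝ) * (2 * s - 1)) (b : ℕ → ℝ → ℂ)
    (β : ℕ → ℕ → ℂ) (D : ℕ → ℝ) (hD0 : ∀ n, 0 ≤ D n)
    (hD : ∀ n h, 0 < h → h ≤ h₁ →
      ‖b n h - ∑ j ∈ Finset.range (J + 1), (h : ℂ) ^ j * β n j‖ ≤ D n * h ^ (J + 1))
    {C : ℝ} (hC : 0 ≤ C)
    (hsum : ∀ h, 0 < h → h ≤ h₁ →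
      ‖∑ n ∈ Finset.range (N + 1), ((mfun s h : ℝ) : ℂ) ^ n * b n h‖ ≤ C * (mfun s h) ^ (N + 1)) :
    ∑ p ∈ coll s N J, ((((2 * π) ^ (-(2 * s)) : ℝ) : ℂ)) ^ p.1 * β p.1 p.2 = 0 := by
  classical
  set c : ℝ := (2 * π) ^ (-(2 * s)) with hc
  have hcpos : 0 < c := by positivity
  have hm : ∀ h, mfun s h = c * h ^ (2 * s - 1) := fun h => rfl
  have hmc : ∀ h, 0 < h → h ≤ 1 → mfun s h ≤ c := by
    intro h hh hh1
    rw [hm]
    have : h ^ (2 * s - 1) ≤ 1 := Real.rpow_le_one hh.le hh1 (by linarith)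
    nlinarith
  have hmp : ∀ h, 0 < h → ∀ n : ℕ, (mfun s h) ^ n = c ^ n * h ^ ((n : ℝ) * (2 * s - 1)) := by
    intro h hh n
    rw [hm, mul_pow, ← Real.rpow_natCast (h ^ (2 * s - 1)) n, ← Real.rpow_mul hh.le, mul_comm (2 * s - 1)]
  set T := Finset.range (N + 1) ×ˢ Finset.range (J + 1) with hT
  set S : Finset ℝ := T.image (bexp s) with hS
  set cc : ℝ → ℂ := fun α => ∑ p ∈ T.filter (fun p => bexp s p = α), (c : ℂ) ^ p.1 * β p.1 p.2
    with hcc
  set A : ℝ := min (((N + 1 : ℕ) : ℝ) * (2 * s - 1)) ((J : ℝ) + 1) with hA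
  have hJA : (J : ℝ) < A := lt_min hN (by linarith)
  have key : ∀ h, 0 < h → h ≤ h₁ →
      ‖∑ α ∈ S, cc α * ((h ^ (id α) : ℝ) : ℂ)‖
      ≤ (C * c ^ (N + 1) + ∑ n ∈ Finset.range (N + 1), c ^ n * D n) * h ^ A := by
    intro h hh hle
    have hle1 := hle.trans h₁le
    have e0 : ∑ α ∈ S, cc α * ((h ^ (id α) : ℝ) : ℂ)
        = ∑ p ∈ T, ((c : ℂ) ^ p.1 * β p.1 p.2) * ((h ^ (bexp s p) : ℝ) : ℂ) := by
      rw [← Finset.sum_fiberwise_of_maps_to (s := T) (t := S) (g := bexp s)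
        (fun p hp => Finset.mem_image_of_mem _ hp)]
      refine Finset.sum_congr rfl fun α _ => ?_
      rw [hcc]
      simp only [id_eq]
      rw [Finset.sum_mul]
      refine Finset.sum_congr rfl fun p hp => ?_
      rw [(Finset.mem_filter.mp hp).2]
    have e1 : ∑ p ∈ T, ((c : ℂ) ^ p.1 * β p.1 p.2) * ((h ^ (bexp s p) : ℝ) : ℂ)
        = ∑ n ∈ Finset.range (N + 1), ((mfun s h : ℝ) : ℂ) ^ n * b n h
          - ∑ n ∈ Finset.range (N + 1), ((mfun s h : ℝ) : ℂ) ^ n *
            (b n h - ∑ j ∈ Finset.range (J + 1), (h : ℂ) ^ j * β n j) := by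
      rw [← Finset.sum_sub_distrib, hT, Finset.sum_product]
      refine Finset.sum_congr rfl fun n _ => ?_
      rw [mul_sub, sub_sub_cancel, Finset.mul_sum]
      refine Finset.sum_congr rfl fun j _ => ?_
      have h1 : ((mfun s h : ℝ) : ℂ) ^ n = (((mfun s h) ^ n : ℝ) : ℂ) := by push_cast; rfl
      rw [h1, hmp h hh n, bexp, Real.rpow_add hh, Real.rpow_natCast]
      push_cast
      ring
    rw [e0, e1]
    refine (norm_sub_le _ _).trans ?_
    rw [add_mul]
    apply add_le_add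
    · refine (hsum h hh hle).trans ?_
      rw [hmp h hh, mul_assoc]
      have h2 : h ^ (((N + 1 : ℕ) : ℝ) * (2 * s - 1)) ≤ h ^ A :=
        Real.rpow_le_rpow_of_exponent_ge hh hle1 (min_le_left _ _)
      gcongr
    · rw [Finset.sum_mul]
      refine (norm_sum_le _ _).trans (Finset.sum_le_sum fun n _ => ?_)
      rw [norm_mul, norm_pow, Complex.norm_real, Real.norm_of_nonneg (mfun_pos hh).le]
      have h3 : h ^ (J + 1) ≤ h ^ A := by
        rw [← Real.rpow_natCast h (J + 1)]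
        apply Real.rpow_le_rpow_of_exponent_ge hh hle1
        push_cast
        exact min_le_right _ _
      have h4 := hD n h hh hle
      have h5 := (mfun_pos (s := s) hh).le
      calc (mfun s h) ^ n * ‖b n h - ∑ j ∈ Finset.range (J + 1), (h : ℂ) ^ j * β n j‖
          ≤ c ^ n * (D n * h ^ A) := by
            gcongr
            · exact hmc h hh hle1
            · exact h4.trans (mul_le_mul_of_nonneg_left h3 (hD0 n))
        _ = _ := by ring
  have h1 := coeff_zero S id (fun a _ b _ h => h) cc h₁pos key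
  have hJS : (J : ℝ) ∈ S := by
    rw [hS, Finset.mem_image]
    refine ⟨(0, J), ?_, ?_⟩
    · rw [hT, Finset.mem_product, Finset.mem_range, Finset.mem_range]
      exact ⟨by omega, by omega⟩
    · simp [bexp]
  have h2 := h1 J hJS hJA
  rw [← h2, hcc]
  simp only [coll]
  exact Finset.sum_congr (by ext p; simp [hT]) fun _ _ => rfl

section

variable {E : Type} [NormedAddCommGroup E] [InnerProductSpace ℝ E] [FiniteDimensional ℝ E]
  [MeasurableSpace E] [BorelSpace E]

/-- the product of the variables of a word -/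
noncomputable def wpoly {r n : ℕ} (w : Fin n → Fin r) : MvPolynomial (Fin r) ℂ :=
  ∏ k, MvPolynomial.X (w k)

lemma eval_wpoly {r n : ℕ} (x : Fin r → ℂ) (w : Fin n → Fin r) :
    MvPolynomial.eval x (wpoly w) = wmon x w := by
  simp [wpoly, wmon, map_prod]

lemma wpoly_homog {r n : ℕ} (w : Fin n → Fin r) : (wpoly w).IsHomogeneous n := by
  have := MvPolynomial.IsHomogeneous.prod (Finset.univ : Finset (Fin n))
    (fun k => (MvPolynomial.X (w k) : MvPolynomial (Fin r) ℂ)) (fun _ => 1)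
    (fun k _ => MvPolynomial.isHomogeneous_X ℂ (w k))
  simpa [wpoly] using this

lemma coeff_zero_wpoly {r n : ℕ} (w : Fin (n + 1) → Fin r) :
    MvPolynomial.coeff 0 (wpoly w) = 0 := by
  apply (wpoly_homog w).coeff_eq_zero
  simp

lemma coeff_single_wpoly {r n : ℕ} (w : Fin (n + 1) → Fin r) (hn : n ≠ 0) (i : Fin r) :
    MvPolynomial.coeff (Finsupp.single i 1) (wpoly w) = 0 := by
  apply (wpoly_homog w).coeff_eq_zero
  rw [Finsupp.degree_single]
  omega

/-- The polynomial of order `J` at `ξ'`: it is determined by the data; its linear part is the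
`J`-th coefficient of the linear term. -/
theorem order_poly {s : ℝ} (hs : 1 / 2 < s) {e : E} (he : ‖e‖ = 1) {r : ℕ}
    {V : Fin r → 𝓢(E, ℂ)} (hV : ∀ i, HasCompactSupport (V i)) {ξ' : E} (hperp : ⟪e, ξ'⟫ = 0)
    (J : ℕ) :
    ∃ (p : MvPolynomial (Fin r) ℂ) (β : Fin r → ℕ → ℂ) (D : ℝ), 0 ≤ D ∧
      (∀ i h, 0 < h → h ≤ hz s ‖ξ'‖ → ‖(𝓕 (V i) : 𝓢(E, ℂ)) (ξ' + tauf ‖ξ'‖ h • e)
        - ∑ j ∈ Finset.range (J + 1), (h : ℂ) ^ j * β i j‖ ≤ D * h ^ (J + 1)) ∧
      MvPolynomial.coeff 0 p = 0 ∧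
      (∀ i, MvPolynomial.coeff (Finsupp.single i 1) p = β i J) ∧
      (∀ x y, SameData s e (fam V x) (fam V y) → MvPolynomial.eval x p = MvPolynomial.eval y p) ∧
      ((∀ n j : ℕ, n ≠ 0 → (n : ℝ) * (2 * s - 1) + j ≠ J) →
        ∀ x, MvPolynomial.eval x p = ∑ i, x i * β i J) := by
  classical
  obtain ⟨N, hN⟩ : ∃ N : ℕ, (J : ℝ) < ((N + 1 : ℕ) : ℝ) * (2 * s - 1) := by
    obtain ⟨N, hN⟩ := exists_nat_gt ((J : ℝ) / (2 * s - 1))
    refine ⟨N, ?_⟩
    rw [div_lt_iff₀ (by linarith)] at hN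
    have h5 : (0 : ℝ) < 2 * s - 1 := by linarith
    push_cast
    nlinarith
  obtain ⟨γ, hγ, hγ0, H⟩ := same_expansion hs he hV hperp N
  have hγ' := fun n w => hγ n w (J + 1)
  simp_rw [hasPow_iff] at hγ'
  choose β D hD0 hD using hγ'
  set c : ℂ := ((((2 * π) ^ (-(2 * s)) : ℝ) : ℂ)) with hc
  set p : MvPolynomial (Fin r) ℂ := ∑ q ∈ coll s N J, ∑ w : Fin (q.1 + 1) → Fin r,
    MvPolynomial.C (c ^ q.1 * β q.1 w q.2) * wpoly w with hp
  have hcoll : ∀ q ∈ coll s N J, q.1 = 0 → q = (0, J) := by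
    intro q hq h0
    have h1 : bexp s q = J := by
      simp only [coll, Finset.mem_filter] at hq
      exact hq.2
    rw [bexp, h0] at h1
    have h2 : (q.2 : ℝ) = J := by simpa using h1
    exact Prod.ext h0 (by exact_mod_cast h2)
  have hmem : ((0, J) : ℕ × ℕ) ∈ coll s N J := by
    simp only [coll, Finset.mem_filter, Finset.mem_product, Finset.mem_range]
    exact ⟨⟨by omega, by omega⟩, by simp [bexp]⟩
  have heval : ∀ x, MvPolynomial.eval x p = ∑ q ∈ coll s N J, c ^ q.1 *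
      ∑ w : Fin (q.1 + 1) → Fin r, wmon x w * β q.1 w q.2 := by
    intro x
    rw [hp, map_sum]
    refine Finset.sum_congr rfl fun q _ => ?_
    rw [map_sum, Finset.mul_sum]
    refine Finset.sum_congr rfl fun w _ => ?_
    rw [map_mul, MvPolynomial.eval_C, eval_wpoly]
    ring
  refine ⟨p, fun i => β 0 (fun _ => i), ∑ w : Fin (0 + 1) → Fin r, D 0 w,
    Finset.sum_nonneg fun w _ => hD0 0 w, fun i h hh hle => ?_, ?_, fun i => ?_,
    fun x y hxy => ?_, fun hno x => ?_⟩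
  · have h1 := hD 0 (fun _ => i) h hh hle
    rw [hγ0] at h1
    refine h1.trans ?_
    gcongr
    exact Finset.single_le_sum (f := fun w => D 0 w) (fun w _ => hD0 0 w) (Finset.mem_univ _)
  · rw [hp, MvPolynomial.coeff_sum]
    refine Finset.sum_eq_zero fun q _ => ?_
    rw [MvPolynomial.coeff_sum]
    refine Finset.sum_eq_zero fun w _ => ?_
    rw [MvPolynomial.coeff_C_mul, coeff_zero_wpoly, mul_zero]
  · rw [hp, MvPolynomial.coeff_sum, Finset.sum_eq_single ((0, J) : ℕ × ℕ)]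
    · rw [MvPolynomial.coeff_sum]
      rw [Finset.sum_eq_single (fun _ => i)]
      · rw [MvPolynomial.coeff_C_mul]
        simp [wpoly]
      · intro w _ hw
        rw [MvPolynomial.coeff_C_mul]
        have h1 : w 0 ≠ i := by
          intro h
          apply hw
          funext k
          obtain rfl : k = 0 := @Subsingleton.elim (Fin 1) _ k 0
          exact h
        simp [wpoly, MvPolynomial.coeff_X, Finsupp.single_left_inj, h1]
      · intro h; exact absurd (Finset.mem_univ _) h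
    · intro q hq hne
      rw [MvPolynomial.coeff_sum]
      refine Finset.sum_eq_zero fun w _ => ?_
      rw [MvPolynomial.coeff_C_mul, coeff_single_wpoly w (fun h => hne (hcoll q hq h)), mul_zero]
    · intro h; exact absurd hmem h
  · obtain ⟨h₁, hh₁, hle, C, hC0, hC⟩ := H x y hxy
    have h1 := extract hs hh₁ (hle.trans (hz_le_one hs)) J N hN
      (fun n h => ∑ w : Fin (n + 1) → Fin r, (wmon x w - wmon y w) * γ n w h)
      (fun n j => ∑ w : Fin (n + 1) → Fin r, (wmon x w - wmon y w) * β n w j)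
      (fun n => ∑ w : Fin (n + 1) → Fin r, ‖wmon x w - wmon y w‖ * D n w)
      (fun n => Finset.sum_nonneg fun w _ => mul_nonneg (norm_nonneg _) (hD0 n w))
      (fun n h hh hle' => ?_) hC0 hC
    · rw [← sub_eq_zero, heval, heval, ← Finset.sum_sub_distrib, ← h1]
      refine Finset.sum_congr rfl fun q _ => ?_
      rw [← mul_sub, ← Finset.sum_sub_distrib]
      congr 1
      refine Finset.sum_congr rfl fun w _ => ?_
      ring
    · have e1 : ∑ w : Fin (n + 1) → Fin r, (wmon x w - wmon y w) * γ n w h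
          - ∑ j ∈ Finset.range (J + 1), (h : ℂ) ^ j *
            ∑ w : Fin (n + 1) → Fin r, (wmon x w - wmon y w) * β n w j
          = ∑ w : Fin (n + 1) → Fin r, (wmon x w - wmon y w) *
            (γ n w h - ∑ j ∈ Finset.range (J + 1), (h : ℂ) ^ j * β n w j) := by
        simp_rw [mul_sub, Finset.sum_sub_distrib, Finset.mul_sum]
        congr 1
        rw [Finset.sum_comm]
        refine Finset.sum_congr rfl fun w _ => ?_
        refine Finset.sum_congr rfl fun j _ => ?_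
        ring
      rw [e1, Finset.sum_mul]
      refine (norm_sum_le _ _).trans (Finset.sum_le_sum fun w _ => ?_)
      rw [norm_mul, mul_assoc]
      gcongr
      exact hD n w h hh (hle'.trans hle)
  · rw [heval, Finset.sum_eq_single ((0, J) : ℕ × ℕ)]
    · simp only [pow_zero, one_mul]
      rw [sum_word]
      refine Finset.sum_congr rfl fun i _ => ?_
      rw [Fintype.sum_unique, wmon_cons]
      have h1 : (Fin.cons i (default : Fin 0 → Fin r) : Fin (0 + 1) → Fin r) = fun _ => i := by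
        funext k
        obtain rfl : k = 0 := @Subsingleton.elim (Fin 1) _ k 0
        rfl
      rw [h1]
      simp [wmon]
    · intro q hq hne
      exfalso
      have h1 : bexp s q = J := by
        simp only [coll, Finset.mem_filter] at hq
        exact hq.2
      exact hno q.1 q.2 (fun h => hne (hcoll q hq h)) h1
    · intro h; exact absurd hmem h

/-- Every nonzero potential is seen by the expansion of the linear term at some order. -/
theorem exists_order {e : E} (he : ‖e‖ = 1) (hdim : 2 ≤ Module.finrank ℝ E) {W : 𝓢(E, ℂ)}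
    (hW : HasCompactSupport W) (hne : W ≠ 0) :
    ∃ (ξ' : E) (J : ℕ), ⟪e, ξ'⟫ = 0 ∧ ∀ (β : ℕ → ℂ) (D h₁ : ℝ), 0 < h₁ → 0 ≤ D →
      (∀ h, 0 < h → h ≤ h₁ → ‖(𝓕 W : 𝓢(E, ℂ)) (ξ' + tauf ‖ξ'‖ h • e)
        - ∑ j ∈ Finset.range (J + 1), (h : ℂ) ^ j * β j‖ ≤ D * h ^ (J + 1)) → β J ≠ 0 := by
  by_contra hcon
  push Not at hcon
  apply hne
  obtain ⟨R, hR⟩ := exists_radius hW
  refine eq_zero_of_lines hdim W he fun ξ' hξ' hperp τ => ?_
  refine fourier_zero_on_line W he hR ξ' ?_ τ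
  have hapos : 0 < ‖ξ'‖ := norm_pos_iff.mpr hξ'
  refine derE_eq_zero (𝓕 W) e ξ' (τ := tauf ‖ξ'‖) (A := ‖ξ'‖ ^ 2) (A' := ‖ξ'‖ ^ 2 / 2)
      (by positivity) fun J => ?_
  have main : ∀ J : ℕ, ∃ h₁, 0 < h₁ ∧ ∃ C, 0 ≤ C ∧ ∀ h, 0 < h → h ≤ h₁ →
      ‖(𝓕 W : 𝓢(E, ℂ)) (ξ' + tauf ‖ξ'‖ h • e)‖ ≤ C * h ^ J := by
    intro J
    induction J with
    | zero =>
      obtain ⟨B, hB0, hB⟩ := schwartz_bdd (𝓕 W : 𝓢(E, ℂ))
      exact ⟨1, one_pos, B, hB0, fun h _ _ => by simpa using hB _⟩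
    | succ J ih =>
      obtain ⟨h₁, hh₁, C, hC0, hC⟩ := ih
      obtain ⟨β, D, h₂, hh₂, hD0, hD, hβJ⟩ := hcon ξ' J hperp
      have h3 : 0 < min (min h₁ h₂) 1 := lt_min (lt_min hh₁ hh₂) one_pos
      have key : ∀ h, 0 < h → h ≤ min (min h₁ h₂) 1 →
          ‖∑ j ∈ Finset.range (J + 1), β j * ((h ^ ((fun j : ℕ => (j : ℝ)) j) : ℝ) : ℂ)‖
            ≤ (C + D) * h ^ (J : ℝ) := by
        intro h hh hle
        have hl1 : h ≤ h₁ := hle.trans ((min_le_left _ _).trans (min_le_left _ _))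
        have hl2 : h ≤ h₂ := hle.trans ((min_le_left _ _).trans (min_le_right _ _))
        have hl3 : h ≤ 1 := hle.trans (min_le_right _ _)
        have e1 : ∑ j ∈ Finset.range (J + 1), β j * ((h ^ ((fun j : ℕ => (j : ℝ)) j) : ℝ) : ℂ)
            = (𝓕 W : 𝓢(E, ℂ)) (ξ' + tauf ‖ξ'‖ h • e) -
              ((𝓕 W : 𝓢(E, ℂ)) (ξ' + tauf ‖ξ'‖ h • e)
                - ∑ j ∈ Finset.range (J + 1), (h : ℂ) ^ j * β j) := by
          rw [sub_sub_cancel]
          refine Finset.sum_congr rfl fun j _ => ?_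
          rw [Real.rpow_natCast]
          push_cast
          ring
        rw [e1]
        refine (norm_sub_le _ _).trans ?_
        rw [add_mul, Real.rpow_natCast]
        refine add_le_add (hC h hh hl1) ((hD h hh hl2).trans ?_)
        have : h ^ (J + 1) ≤ h ^ J := pow_le_pow_of_le_one hh.le hl3 (Nat.le_succ J)
        gcongr
      have h4 := coeff_zero (Finset.range (J + 1)) (fun j : ℕ => (j : ℝ))
        (fun a _ b _ h => by exact_mod_cast (show (a : ℝ) = b from h)) β h3 key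
      have h5 : ∀ j ∈ Finset.range (J + 1), β j = 0 := by
        intro j hj
        rcases Nat.lt_succ_iff_lt_or_eq.mp (Finset.mem_range.mp hj) with h | h
        · exact h4 j hj (by exact_mod_cast h)
        · rw [h]; exact hβJ
      refine ⟨h₂, hh₂, D, hD0, fun h hh hle => ?_⟩
      have h6 := hD h hh hle
      have h7 : ∑ j ∈ Finset.range (J + 1), (h : ℂ) ^ j * β j = 0 :=
        Finset.sum_eq_zero fun j hj => by rw [h5 j hj, mul_zero]
      rwa [h7, sub_zero] at h6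
  obtain ⟨h₁, hh₁, C, hC0, hC⟩ := main J
  refine ⟨h₁, hh₁, C, hC0, fun h hh hle => ⟨?_, tauf_upper hh.le, hC h hh hle⟩⟩
  have := tauf_lower (a := ‖ξ'‖) hh.le
  linarith

end

end FracScat
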