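import Pool.Agent.Lib_helper85.FA.A3

/-! # Finite-dimensional families: the polynomial map and its consequences -/

open MeasureTheory Filter Complex Set Topology
open scoped Real SchwartzMap LineDeriv ContDiff NNReal FourierTransform RealInnerProductSpace

namespace FracScat

/-- the linear part of a polynomial as a continuous linear map -/
noncomputable def linPart {r : ℕ} (p : MvPolynomial (Fin r) ℂ) : (Fin r → ℂ) →L[ℂ] ℂ :=
  LinearMap.toContinuousLinearMap
    (∑ j, MvPolynomial.coeff (Finsupp.single j 1) p • (LinearMap.proj j : (Fin r → ℂ) →ₗ[ℂ] ℂ))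

lemma linPart_apply {r : ℕ} (p : MvPolynomial (Fin r) ℂ) (x : Fin r → ℂ) :
    linPart p x = ∑ j, MvPolynomial.coeff (Finsupp.single j 1) p * x j := by
  rw [linPart]
  simp

/-- strict derivative at `0` of the evaluation of a polynomial -/
lemma strict_eval {r : ℕ} (p : MvPolynomial (Fin r) ℂ) :
    HasStrictFDerivAt (fun x : Fin r → ℂ => MvPolynomial.eval x p) (linPart p) 0 := by
  classical
  induction p using MvPolynomial.induction_on with
  | C a =>
    have h1 : ∀ j : Fin r, MvPolynomial.coeff (Finsupp.single j 1) (MvPolynomial.C a : MvPolynomial (Fin r) ℂ) = 0 := by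
      intro j
      rw [MvPolynomial.coeff_C, if_neg]
      intro h
      have := DFunLike.congr_fun h j
      simp at this
    have h2 : HasStrictFDerivAt (fun _ : Fin r → ℂ => a) (0 : (Fin r → ℂ) →L[ℂ] ℂ) 0 :=
      hasStrictFDerivAt_const _ _
    simp only [MvPolynomial.eval_C]
    refine h2.congr_fderiv ?_
    refine ContinuousLinearMap.ext fun x => ?_
    rw [linPart_apply]
    simp [h1]
  | add p q hp hq =>
    have h1 := hp.add hq
    simp only [map_add]
    refine h1.congr_fderiv ?_
    refine ContinuousLinearMap.ext fun x => ?_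
    rw [add_apply, linPart_apply, linPart_apply, linPart_apply]
    simp only [MvPolynomial.coeff_add, add_mul, Finset.sum_add_distrib]
  | mul_X p i hp =>
    have h2 : HasStrictFDerivAt (fun x : Fin r → ℂ => x i)
        (ContinuousLinearMap.proj i : (Fin r → ℂ) →L[ℂ] ℂ) 0 :=
      (ContinuousLinearMap.proj i : (Fin r → ℂ) →L[ℂ] ℂ).hasStrictFDerivAt
    have h1 := hp.mul h2
    have h3 : ∀ j : Fin r, MvPolynomial.coeff (Finsupp.single j 1) (p * MvPolynomial.X i)
        = if i = j then MvPolynomial.coeff 0 p else 0 := by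
      intro j
      rw [MvPolynomial.coeff_mul_X']
      by_cases hij : i = j
      · subst hij
        simp
      · rw [if_neg, if_neg hij]
        simp [hij]
    simp only [map_mul, MvPolynomial.eval_X]
    refine h1.congr_fderiv ?_
    refine ContinuousLinearMap.ext fun x => ?_
    have h4 : MvPolynomial.eval (0 : Fin r → ℂ) p = MvPolynomial.coeff 0 p := by
      rw [MvPolynomial.eval_zero, MvPolynomial.constantCoeff_eq]
    rw [linPart_apply]
    simp [h3, MvPolynomial.constantCoeff_eq]

section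

variable {E : Type} [NormedAddCommGroup E] [InnerProductSpace ℝ E] [FiniteDimensional ℝ E]
  [MeasurableSpace E] [BorelSpace E]

/-- **The polynomial map of a family.** -/
theorem family_poly {s : ℝ} (hs : 1 / 2 < s) {e : E} (he : ‖e‖ = 1)
    (hdim : 2 ≤ Module.finrank ℝ E) {r : ℕ}
    {V : Fin r → 𝓢(E, ℂ)} (hV : ∀ i, HasCompactSupport (V i)) (hlin : LinearIndependent ℂ V) :
    ∃ p : Fin r → MvPolynomial (Fin r) ℂ,
      (∀ i, MvPolynomial.coeff 0 (p i) = 0) ∧
      (∀ i j, MvPolynomial.coeff (Finsupp.single j 1) (p i) = if j = i then 1 else 0) ∧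
      ∀ x y, SameData s e (fam V x) (fam V y) →
        ∀ i, MvPolynomial.eval x (p i) = MvPolynomial.eval y (p i) := by
  classical
  choose p β D hD0 hD hp0 hp1 hpE _ using
    fun α : {q : E × ℕ // ⟪e, q.1⟫ = 0} => order_poly hs he hV α.2 α.1.2
  set ℓ : {q : E × ℕ // ⟪e, q.1⟫ = 0} → Module.Dual ℂ (Fin r → ℂ) :=
    fun α => ∑ i, β α i α.1.2 • (LinearMap.proj i : (Fin r → ℂ) →ₗ[ℂ] ℂ) with hℓ
  have hℓx : ∀ α x, ℓ α x = ∑ i, x i * β α i α.1.2 := by
    intro α x
    rw [hℓ]
    simp only [LinearMap.sum_apply, LinearMap.smul_apply, LinearMap.proj_apply, smul_eq_mul]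
    exact Finset.sum_congr rfl fun i _ => mul_comm _ _
  have hsee : ∀ x : Fin r → ℂ, (∀ α, ℓ α x = 0) → x = 0 := by
    intro x hx
    by_contra hne
    have hW : fam V x ≠ 0 := by
      intro h
      apply hne
      ext i
      exact (Fintype.linearIndependent_iff.mp hlin) x h i
    obtain ⟨ξ', J, hperp, hH⟩ := exists_order he hdim (fam_compact hV x) hW
    set α : {q : E × ℕ // ⟪e, q.1⟫ = 0} := ⟨(ξ', J), hperp⟩ with hα
    have h1 := hH (fun j => ∑ i, x i * β α i j) (∑ i, ‖x i‖ * D α) (hz s ‖ξ'‖)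
      (hz_pos hs (norm_nonneg _)) (Finset.sum_nonneg fun i _ => mul_nonneg (norm_nonneg _) (hD0 α))
      (fun h hh hle => ?_)
    · exact h1 (by rw [← hx α, hℓx])
    · have h2 : (𝓕 (fam V x) : 𝓢(E, ℂ)) (ξ' + tauf ‖ξ'‖ h • e)
          - ∑ j ∈ Finset.range (J + 1), (h : ℂ) ^ j * ∑ i, x i * β α i j
          = ∑ i, x i * ((𝓕 (V i) : 𝓢(E, ℂ)) (ξ' + tauf ‖ξ'‖ h • e)
            - ∑ j ∈ Finset.range (J + 1), (h : ℂ) ^ j * β α i j) := by
        rw [fourier_fam]
        simp only [sum_apply, smul_apply, smul_eq_mul, mul_sub, Finset.sum_sub_distrib,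
          Finset.mul_sum]
        congr 1
        rw [Finset.sum_comm]
        refine Finset.sum_congr rfl fun i _ => ?_
        refine Finset.sum_congr rfl fun j _ => ?_
        ring
      rw [h2, Finset.sum_mul]
      refine (norm_sum_le _ _).trans (Finset.sum_le_sum fun i _ => ?_)
      rw [norm_mul, mul_assoc]
      gcongr
      exact hD α i h hh hle
  have hspan : Submodule.span ℂ (range ℓ) = ⊤ := by
    have h1 : (Submodule.span ℂ (range ℓ)).dualCoannihilator = ⊥ := by
      rw [eq_bot_iff]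
      intro x hx
      rw [Submodule.mem_dualCoannihilator] at hx
      rw [Submodule.mem_bot]
      exact hsee x fun α => hx _ (Submodule.subset_span (mem_range_self α))
    have h2 := Subspace.finrank_add_finrank_dualCoannihilator_eq (Submodule.span ℂ (range ℓ))
    rw [h1, finrank_bot, add_zero] at h2
    apply Submodule.eq_top_of_finrank_eq
    rw [h2, Subspace.dual_finrank_eq]
  have hco : ∀ i : Fin r, ∃ c : {q : E × ℕ // ⟪e, q.1⟫ = 0} →₀ ℂ,
      (c.sum fun α a => a • ℓ α) = (LinearMap.proj i : (Fin r → ℂ) →ₗ[ℂ] ℂ) := by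
    intro i
    rw [← Finsupp.mem_span_range_iff_exists_finsupp, hspan]
    trivial
  choose c hc using hco
  refine ⟨fun i => ∑ α ∈ (c i).support, MvPolynomial.C (c i α) * p α, fun i => ?_,
    fun i j => ?_, fun x y hxy i => ?_⟩
  · rw [MvPolynomial.coeff_sum]
    refine Finset.sum_eq_zero fun α _ => ?_
    rw [MvPolynomial.coeff_C_mul, hp0, mul_zero]
  · rw [MvPolynomial.coeff_sum]
    have h1 := LinearMap.congr_fun (hc i) (Pi.single j 1)
    rw [Finsupp.sum, LinearMap.sum_apply] at h1
    simp only [LinearMap.smul_apply, smul_eq_mul, LinearMap.proj_apply] at h1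
    have h2 : ∀ α ∈ (c i).support, MvPolynomial.coeff (Finsupp.single j 1)
        (MvPolynomial.C (c i α) * p α) = c i α * ℓ α (Pi.single j 1) := by
      intro α _
      rw [MvPolynomial.coeff_C_mul, hp1, hℓx]
      congr 1
      rw [Finset.sum_eq_single j]
      · simp
      · intro k _ hk
        simp [hk]
      · intro h; exact absurd (Finset.mem_univ _) h
    rw [Finset.sum_congr rfl h2, h1, Pi.single_apply]
    by_cases h : i = j
    · subst h; simp
    · rw [if_neg h, if_neg (Ne.symm h)]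
  · simp only [map_sum, map_mul, MvPolynomial.eval_C]
    exact Finset.sum_congr rfl fun α _ => by rw [hpE α x y hxy]

/-- local uniqueness near `0` -/
theorem family_small {r : ℕ} {p : Fin r → MvPolynomial (Fin r) ℂ}
    (hp : ∀ i j, MvPolynomial.coeff (Finsupp.single j 1) (p i) = if j = i then 1 else 0) :
    ∃ ε : ℝ, 0 < ε ∧ ∀ x y : Fin r → ℂ, (∀ i, ‖x i‖ < ε) → (∀ i, ‖y i‖ < ε) →
      (∀ i, MvPolynomial.eval x (p i) = MvPolynomial.eval y (p i)) → x = y := by
  classical
  have h1 : HasStrictFDerivAt (fun (x : Fin r → ℂ) (i : Fin r) => MvPolynomial.eval x (p i))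
      (ContinuousLinearMap.id ℂ (Fin r → ℂ)) 0 := by
    rw [hasStrictFDerivAt_pi']
    intro i
    refine (strict_eval (p i)).congr_fderiv ?_
    refine ContinuousLinearMap.ext fun x => ?_
    rw [linPart_apply]
    simp [hp]
  have h2 := h1.isLittleO.def (show (0 : ℝ) < 1 / 2 by norm_num)
  rw [nhds_prod_eq] at h2
  obtain ⟨ε, hε, h3⟩ := (Metric.nhds_basis_ball.prod_self.eventually_iff).mp h2
  refine ⟨ε, hε, fun x y hx hy hxy => ?_⟩
  have hx' : x ∈ Metric.ball (0 : Fin r → ℂ) ε := by
    rw [mem_ball_zero_iff]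
    exact (pi_norm_lt_iff hε).mpr hx
  have hy' : y ∈ Metric.ball (0 : Fin r → ℂ) ε := by
    rw [mem_ball_zero_iff]
    exact (pi_norm_lt_iff hε).mpr hy
  have h4 := h3 (show (x, y) ∈ Metric.ball (0 : Fin r → ℂ) ε ×ˢ Metric.ball 0 ε from ⟨hx', hy'⟩)
  simp only at h4
  have h5 : (fun i => MvPolynomial.eval x (p i)) = fun i => MvPolynomial.eval y (p i) :=
    funext hxy
  rw [h5, sub_self, zero_sub, norm_neg, ContinuousLinearMap.id_apply] at h4
  have h6 : ‖x - y‖ = 0 := by
    have := norm_nonneg (x - y)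
    linarith
  exact sub_eq_zero.mp (norm_eq_zero.mp h6)

/-- restriction of a polynomial to a line -/
noncomputable def linePoly {r : ℕ} (x : Fin r → ℂ) (p : MvPolynomial (Fin r) ℂ) : Polynomial ℂ :=
  MvPolynomial.aeval (fun j => Polynomial.C (x j) * Polynomial.X) p

lemma eval_linePoly {r : ℕ} (x : Fin r → ℂ) (p : MvPolynomial (Fin r) ℂ) (c : ℂ) :
    Polynomial.eval c (linePoly x p) = MvPolynomial.eval (fun i => c * x i) p := by
  rw [linePoly, ← Polynomial.coe_evalRingHom, MvPolynomial.aeval_def, MvPolynomial.hom_eval₂,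
    MvPolynomial.eval, MvPolynomial.coe_eval₂Hom]
  congr 1
  · ext z
    simp
  · funext j
    rw [Polynomial.coe_evalRingHom, Polynomial.eval_mul, Polynomial.eval_C,
      Polynomial.eval_X, mul_comm]

lemma deriv_linePoly {r : ℕ} (x : Fin r → ℂ) (p : MvPolynomial (Fin r) ℂ) :
    HasDerivAt (fun c : ℂ => Polynomial.eval c (linePoly x p))
      (∑ j, MvPolynomial.coeff (Finsupp.single j 1) p * x j) 0 := by
  have h1 : HasDerivAt (fun c : ℂ => fun i => c * x i) x 0 := by
    rw [hasDerivAt_pi]
    intro i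
    simpa using (hasDerivAt_id (0 : ℂ)).mul_const (x i)
  have h2 : HasFDerivAt (fun x : Fin r → ℂ => MvPolynomial.eval x p)
      (linPart p) ((fun c : ℂ => fun i => c * x i) 0) := by
    have h3 : (fun c : ℂ => fun i => c * x i) 0 = (0 : Fin r → ℂ) := by
      ext i; simp
    rw [h3]
    exact (strict_eval p).hasFDerivAt
  have h4 := h2.comp_hasDerivAt (0 : ℂ) h1
  simp only [eval_linePoly]
  refine h4.congr_deriv ?_
  rw [linPart_apply]

/-- finitely many coupling constants, one potential fixed -/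
theorem family_line {s : ℝ} {e : E} {r : ℕ} {V : Fin r → 𝓢(E, ℂ)}
    {p : Fin r → MvPolynomial (Fin r) ℂ}
    (hp : ∀ i j, MvPolynomial.coeff (Finsupp.single j 1) (p i) = if j = i then 1 else 0)
    (hE : ∀ x y, SameData s e (fam V x) (fam V y) →
        ∀ i, MvPolynomial.eval x (p i) = MvPolynomial.eval y (p i))
    {x : Fin r → ℂ} (hx : x ≠ 0) (y : Fin r → ℂ) :
    {c : ℂ | SameData s e (fam V (fun i => c * x i)) (fam V y)}.Finite := by
  classical
  obtain ⟨i, hi⟩ : ∃ i, x i ≠ 0 := by
    by_contra hcon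
    push Not at hcon
    exact hx (funext hcon)
  set f : Polynomial ℂ := linePoly x (p i) - Polynomial.C (MvPolynomial.eval y (p i)) with hf
  have hf0 : f ≠ 0 := by
    intro h
    rw [hf] at h
    have h0 : linePoly x (p i) = Polynomial.C (MvPolynomial.eval y (p i)) := sub_eq_zero.mp h
    have h1 := deriv_linePoly x (p i)
    have h2 : (fun c : ℂ => Polynomial.eval c (linePoly x (p i)))
        = fun _ => MvPolynomial.eval y (p i) := by
      funext c
      rw [h0, Polynomial.eval_C]
    rw [h2] at h1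
    have h3 := h1.unique (hasDerivAt_const _ _)
    simp only [hp, ite_mul, one_mul, zero_mul, Finset.sum_ite_eq', Finset.mem_univ, if_true] at h3
    exact hi h3
  refine (f.roots.toFinset.finite_toSet).subset fun c hc => ?_
  rw [Finset.mem_coe, Multiset.mem_toFinset, Polynomial.mem_roots hf0, Polynomial.IsRoot, hf,
    Polynomial.eval_sub, Polynomial.eval_C, eval_linePoly, hE _ _ hc i, sub_self]

/-- finitely many coupling constants, both potentials scaled -/
theorem family_pair {s : ℝ} {e : E} {r : ℕ} {V : Fin r → 𝓢(E, ℂ)}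
    {p : Fin r → MvPolynomial (Fin r) ℂ}
    (hp : ∀ i j, MvPolynomial.coeff (Finsupp.single j 1) (p i) = if j = i then 1 else 0)
    (hE : ∀ x y, SameData s e (fam V x) (fam V y) →
        ∀ i, MvPolynomial.eval x (p i) = MvPolynomial.eval y (p i))
    {x y : Fin r → ℂ} (hxy : x ≠ y) :
    {c : ℂ | c ≠ 0 ∧ SameData s e (fam V (fun i => c * x i)) (fam V (fun i => c * y i))}.Finite := by
  classical
  obtain ⟨i, hi⟩ : ∃ i, x i ≠ y i := by
    by_contra hcon
    push Not at hcon
    exact hxy (funext hcon)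
  set f : Polynomial ℂ := linePoly x (p i) - linePoly y (p i) with hf
  have hf0 : f ≠ 0 := by
    intro h
    rw [hf] at h
    have h0 : linePoly x (p i) = linePoly y (p i) := sub_eq_zero.mp h
    have h1 := deriv_linePoly x (p i)
    have h2 := deriv_linePoly y (p i)
    rw [h0] at h1
    have h3 := h1.unique h2
    simp only [hp, ite_mul, one_mul, zero_mul, Finset.sum_ite_eq', Finset.mem_univ, if_true] at h3
    exact hi h3
  refine (f.roots.toFinset.finite_toSet).subset fun c hc => ?_
  rw [Finset.mem_coe, Multiset.mem_toFinset, Polynomial.mem_roots hf0, Polynomial.IsRoot, hf,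
    Polynomial.eval_sub, eval_linePoly, eval_linePoly, hE _ _ hc.2 i, sub_self]

omit [FiniteDimensional ℝ E] [MeasurableSpace E] [BorelSpace E] in
/-- two potentials inside a linearly independent family -/
lemma exists_family {V V' : 𝓢(E, ℂ)} (hV : HasCompactSupport V) (hV' : HasCompactSupport V') :
    ∃ (r : ℕ) (v : Fin r → 𝓢(E, ℂ)) (x y : Fin r → ℂ), (∀ i, HasCompactSupport (v i)) ∧
      LinearIndependent ℂ v ∧ fam v x = V ∧ fam v y = V' := by
  set S : Submodule ℂ 𝓢(E, ℂ) := Submodule.span ℂ {V, V'} with hS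
  have hfd : FiniteDimensional ℂ S := FiniteDimensional.span_of_finite ℂ (by simp)
  set b := Module.finBasis ℂ S with hb
  have hVS : V ∈ S := Submodule.subset_span (by simp)
  have hVS' : V' ∈ S := Submodule.subset_span (by simp)
  refine ⟨_, fun i => (b i : 𝓢(E, ℂ)), b.repr ⟨V, hVS⟩, b.repr ⟨V', hVS'⟩, fun i => ?_, ?_, ?_, ?_⟩
  · obtain ⟨a, c, hac⟩ := Submodule.mem_span_pair.mp (b i).2
    refine HasCompactSupport.intro (K := tsupport V ∪ tsupport V') (hV.isCompact.union hV'.isCompact) ?_
    intro z hz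
    have h1 : z ∉ tsupport V := fun h => hz (Or.inl h)
    have h2 : z ∉ tsupport V' := fun h => hz (Or.inr h)
    change ((b i : 𝓢(E, ℂ))) z = 0
    rw [← hac]
    simp [image_eq_zero_of_notMem_tsupport h1, image_eq_zero_of_notMem_tsupport h2]
  · exact b.linearIndependent.map' S.subtype (Submodule.ker_subtype S)
  · have h1 := b.sum_repr ⟨V, hVS⟩
    have h2 := congrArg S.subtype h1
    rw [map_sum] at h2
    simpa [fam] using h2
  · have h1 := b.sum_repr ⟨V', hVS'⟩
    have h2 := congrArg S.subtype h1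
    rw [map_sum] at h2
    simpa [fam] using h2

/-- finitely many exponents for a pair of potentials -/
theorem finite_exponents {e : E} (he : ‖e‖ = 1) (hdim : 2 ≤ Module.finrank ℝ E) {V V' : 𝓢(E, ℂ)}
    (hV : HasCompactSupport V) (hV' : HasCompactSupport V') (hne : V ≠ V') {ε : ℝ} (hε : 0 < ε) :
    {s : ℝ | 1 / 2 + ε ≤ s ∧ SameData s e V V'}.Finite := by
  classical
  have hW : V - V' ≠ 0 := sub_ne_zero.mpr hne
  have hWc : HasCompactSupport (V - V' : 𝓢(E, ℂ)) := by
    refine HasCompactSupport.intro (K := tsupport V ∪ tsupport V') (hV.isCompact.union hV'.isCompact) ?_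
    intro z hz
    have h1 : z ∉ tsupport V := fun h => hz (Or.inl h)
    have h2 : z ∉ tsupport V' := fun h => hz (Or.inr h)
    simp [image_eq_zero_of_notMem_tsupport h1, image_eq_zero_of_notMem_tsupport h2]
  obtain ⟨ξ', J, hperp, hH⟩ := exists_order he hdim hWc hW
  obtain ⟨M, hM⟩ := exists_nat_gt ((J : ℝ) / (2 * ε))
  refine (((Finset.range (M + 1) ×ˢ Finset.range (J + 1)).image
    (fun q : ℕ × ℕ => 1 / 2 + (q.2 : ℝ) / (2 * q.1))).finite_toSet).subset fun s hsV => ?_
  obtain ⟨hsε, hsame⟩ := hsV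
  have hs : 1 / 2 < s := by linarith
  set v : Fin 2 → 𝓢(E, ℂ) := ![V, V'] with hv
  have hvc : ∀ i, HasCompactSupport (v i) := by
    intro i
    fin_cases i
    · exact hV
    · exact hV'
  obtain ⟨p, β, D, hD0, hD, -, -, hpE, hlinear⟩ := order_poly hs he hvc hperp J
  have hx : fam v ![1, 0] = V := by ext z; simp [fam_apply, hv]
  have hy : fam v ![0, 1] = V' := by ext z; simp [fam_apply, hv]
  have h1 := hpE ![1, 0] ![0, 1] (by rw [hx, hy]; exact hsame)
  have h2 := hH (fun j => β 0 j - β 1 j) (2 * D) (hz s ‖ξ'‖) (hz_pos hs (norm_nonneg _))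
    (by positivity) (fun h hh hle => ?_)
  · by_cases hno : ∀ n j : ℕ, n ≠ 0 → (n : ℝ) * (2 * s - 1) + j ≠ J
    · exfalso
      apply h2
      have h3 := hlinear hno ![1, 0]
      have h4 := hlinear hno ![0, 1]
      simp at h3 h4
      rw [← h3, ← h4, h1, sub_self]
    · push Not at hno
      obtain ⟨n, j, hn, hnj⟩ := hno
      have hn' : (0 : ℝ) < n := by exact_mod_cast Nat.pos_of_ne_zero hn
      have h5 : (0 : ℝ) < (n : ℝ) * (2 * s - 1) := mul_pos hn' (by linarith)
      have hjJ : j ≤ J := by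
        have : (j : ℝ) ≤ J := by linarith
        exact_mod_cast this
      rw [Finset.coe_image, mem_image]
      refine ⟨(n, J - j), ?_, ?_⟩
      · rw [Finset.mem_coe, Finset.mem_product, Finset.mem_range, Finset.mem_range]
        refine ⟨?_, by simp only; omega⟩
        have h6 : (n : ℝ) * (2 * ε) ≤ J := by
          have h7 : (n : ℝ) * (2 * ε) ≤ n * (2 * s - 1) := by
            apply mul_le_mul_of_nonneg_left _ hn'.le
            linarith
          have : (0 : ℝ) ≤ j := Nat.cast_nonneg _
          linarith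
        have h7 : (n : ℝ) ≤ (J : ℝ) / (2 * ε) := by
          rw [le_div_iff₀ (by positivity)]
          exact h6
        have h8 : (n : ℝ) < M := lt_of_le_of_lt h7 hM
        have : n < M := by exact_mod_cast h8
        simp only
        omega
      · simp only
        rw [Nat.cast_sub hjJ, ← hnj]
        field_simp
        ring
  · have h3 := hD 0 h hh hle
    have h4 := hD 1 h hh hle
    have e1 : (𝓕 (V - V') : 𝓢(E, ℂ)) (ξ' + tauf ‖ξ'‖ h • e)
        - ∑ j ∈ Finset.range (J + 1), (h : ℂ) ^ j * (β 0 j - β 1 j)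
        = ((𝓕 (v 0) : 𝓢(E, ℂ)) (ξ' + tauf ‖ξ'‖ h • e)
            - ∑ j ∈ Finset.range (J + 1), (h : ℂ) ^ j * β 0 j)
          - ((𝓕 (v 1) : 𝓢(E, ℂ)) (ξ' + tauf ‖ξ'‖ h • e)
            - ∑ j ∈ Finset.range (J + 1), (h : ℂ) ^ j * β 1 j) := by
      have h5 : (𝓕 (V - V') : 𝓢(E, ℂ)) = 𝓕 V - 𝓕 V' := by
        rw [sub_eq_add_neg, sub_eq_add_neg, FourierTransform.fourier_add,
          FourierTransform.fourier_neg]
      rw [h5]
      have h6 : (v 0) = V := rfl
      have h7 : (v 1) = V' := rfl
      rw [h6, h7]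
      simp only [mul_sub, Finset.sum_sub_distrib]
      rw [sub_apply]
      ring
    rw [e1]
    refine (norm_sub_le _ _).trans ?_
    linarith

end

end FracScat
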