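import Pool.Agent.Lib_helper85.FA.A4

/-! # Polynomial maps with identity linear part: generic local injectivity, generic finiteness -/

open MeasureTheory Filter Complex Set Topology
open scoped Real SchwartzMap LineDeriv ContDiff NNReal FourierTransform RealInnerProductSpace

namespace FracScat

/-- the derivative at `y` of a polynomial -/
noncomputable def gradPart {r : ℕ} (p : MvPolynomial (Fin r) ℂ) (y : Fin r → ℂ) :
    (Fin r → ℂ) →L[ℂ] ℂ :=
  LinearMap.toContinuousLinearMap
    (∑ j, MvPolynomial.eval y (MvPolynomial.pderiv j p) •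
      (LinearMap.proj j : (Fin r → ℂ) →ₗ[ℂ] ℂ))

lemma gradPart_apply {r : ℕ} (p : MvPolynomial (Fin r) ℂ) (y x : Fin r → ℂ) :
    gradPart p y x = ∑ j, MvPolynomial.eval y (MvPolynomial.pderiv j p) * x j := by
  rw [gradPart]
  simp

/-- strict derivative of the evaluation of a polynomial -/
lemma strict_eval_at {r : ℕ} (p : MvPolynomial (Fin r) ℂ) (y : Fin r → ℂ) :
    HasStrictFDerivAt (fun x : Fin r → ℂ => MvPolynomial.eval x p) (gradPart p y) y := by
  classical
  induction p using MvPolynomial.induction_on with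
  | C a =>
    have h2 : HasStrictFDerivAt (fun _ : Fin r → ℂ => a) (0 : (Fin r → ℂ) →L[ℂ] ℂ) y :=
      hasStrictFDerivAt_const _ _
    simp only [MvPolynomial.eval_C]
    refine h2.congr_fderiv ?_
    refine ContinuousLinearMap.ext fun x => ?_
    rw [gradPart_apply]
    simp
  | add p q hp hq =>
    have h1 := hp.add hq
    simp only [map_add]
    refine h1.congr_fderiv ?_
    refine ContinuousLinearMap.ext fun x => ?_
    rw [add_apply, gradPart_apply, gradPart_apply, gradPart_apply]
    simp only [map_add, add_mul, Finset.sum_add_distrib]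
  | mul_X p i hp =>
    have h2 : HasStrictFDerivAt (fun x : Fin r → ℂ => x i)
        (ContinuousLinearMap.proj i : (Fin r → ℂ) →L[ℂ] ℂ) y :=
      (ContinuousLinearMap.proj i : (Fin r → ℂ) →L[ℂ] ℂ).hasStrictFDerivAt
    have h1 := hp.mul h2
    simp only [map_mul, MvPolynomial.eval_X]
    refine h1.congr_fderiv ?_
    refine ContinuousLinearMap.ext fun x => ?_
    rw [gradPart_apply, add_apply, smul_apply, smul_apply, gradPart_apply]
    simp only [MvPolynomial.pderiv_mul, MvPolynomial.pderiv_X, map_add, map_mul,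
      MvPolynomial.eval_X, add_mul, Finset.sum_add_distrib, ContinuousLinearMap.proj_apply,
      smul_eq_mul, Finset.mul_sum]
    rw [add_comm]
    congr 1
    · exact Finset.sum_congr rfl fun j _ => by ring
    · rw [Finset.sum_eq_single i]
      · simp
      · intro j _ hj
        simp [Ne.symm hj]
      · intro h; exact absurd (Finset.mem_univ _) h

lemma pderiv_eval_zero {r : ℕ} (p : MvPolynomial (Fin r) ℂ) (j : Fin r) :
    MvPolynomial.eval 0 (MvPolynomial.pderiv j p) = MvPolynomial.coeff (Finsupp.single j 1) p := by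
  classical
  have h1 := (strict_eval_at p 0).hasFDerivAt.unique (strict_eval p).hasFDerivAt
  have h2 := DFunLike.congr_fun h1 (Pi.single j 1)
  rw [gradPart_apply, linPart_apply] at h2
  simpa [Pi.single_apply] using h2

/-- generic local injectivity -/
theorem family_generic {r : ℕ} {p : Fin r → MvPolynomial (Fin r) ℂ}
    (hp : ∀ i j, MvPolynomial.coeff (Finsupp.single j 1) (p i) = if j = i then 1 else 0) :
    ∃ D : MvPolynomial (Fin r) ℂ, MvPolynomial.eval 0 D = 1 ∧
      ∀ z, MvPolynomial.eval z D ≠ 0 → ∃ ε : ℝ, 0 < ε ∧ ∀ x y : Fin r → ℂ,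
        (∀ i, ‖x i - z i‖ < ε) → (∀ i, ‖y i - z i‖ < ε) →
        (∀ i, MvPolynomial.eval x (p i) = MvPolynomial.eval y (p i)) → x = y := by
  classical
  set A : Matrix (Fin r) (Fin r) (MvPolynomial (Fin r) ℂ) :=
    Matrix.of fun i j => MvPolynomial.pderiv j (p i) with hA
  have hdet : ∀ z, MvPolynomial.eval z A.det
      = (Matrix.of fun i j => MvPolynomial.eval z (MvPolynomial.pderiv j (p i))).det := by
    intro z
    rw [RingHom.map_det]
    rfl
  refine ⟨A.det, ?_, fun z hz => ?_⟩
  · rw [hdet]
    have h1 : (Matrix.of fun i j => MvPolynomial.eval 0 (MvPolynomial.pderiv j (p i)))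
        = (1 : Matrix (Fin r) (Fin r) ℂ) := by
      ext i j
      rw [Matrix.of_apply, pderiv_eval_zero, hp, Matrix.one_apply]
      by_cases h : i = j
      · rw [if_pos h, if_pos h.symm]
      · rw [if_neg h, if_neg (Ne.symm h)]
    rw [h1, Matrix.det_one]
  · rw [hdet] at hz
    set M : Matrix (Fin r) (Fin r) ℂ :=
      Matrix.of fun i j => MvPolynomial.eval z (MvPolynomial.pderiv j (p i)) with hM
    set L : (Fin r → ℂ) →L[ℂ] (Fin r → ℂ) :=
      ContinuousLinearMap.pi fun i => gradPart (p i) z with hL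
    have hLM : ∀ x, L x = M.mulVec x := by
      intro x
      ext i
      rw [hL, ContinuousLinearMap.pi_apply, gradPart_apply]
      rfl
    have hker : LinearMap.ker (L : (Fin r → ℂ) →ₗ[ℂ] (Fin r → ℂ)) = ⊥ := by
      rw [LinearMap.ker_eq_bot']
      intro x hx
      have h1 : M.mulVec x = 0 := by rw [← hLM]; exact hx
      exact Matrix.eq_zero_of_mulVec_eq_zero hz h1
    obtain ⟨K, hK, hanti⟩ := LinearMap.exists_antilipschitzWith _ hker
    have hbound : ∀ x, ‖x‖ ≤ K * ‖L x‖ := by
      intro x
      have h1 := hanti.le_mul_dist x 0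
      simpa using h1
    have h1 : HasStrictFDerivAt (fun (x : Fin r → ℂ) (i : Fin r) => MvPolynomial.eval x (p i))
        L z := by
      rw [hasStrictFDerivAt_pi']
      intro i
      exact (strict_eval_at (p i) z).congr_fderiv (ContinuousLinearMap.ext fun x => rfl)
    have hK' : (0 : ℝ) < K := by exact_mod_cast hK
    have h2 := h1.isLittleO.def (show (0 : ℝ) < 1 / (2 * K) by positivity)
    rw [nhds_prod_eq] at h2
    obtain ⟨ε, hε, h3⟩ := (Metric.nhds_basis_ball.prod_self.eventually_iff).mp h2
    refine ⟨ε, hε, fun x y hx hy hxy => ?_⟩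
    have hx' : x ∈ Metric.ball z ε := by
      rw [mem_ball_iff_norm]
      exact (pi_norm_lt_iff hε).mpr hx
    have hy' : y ∈ Metric.ball z ε := by
      rw [mem_ball_iff_norm]
      exact (pi_norm_lt_iff hε).mpr hy
    have h4 := h3 (show (x, y) ∈ Metric.ball z ε ×ˢ Metric.ball z ε from ⟨hx', hy'⟩)
    simp only at h4
    have h5 : (fun i => MvPolynomial.eval x (p i)) = fun i => MvPolynomial.eval y (p i) :=
      funext hxy
    rw [h5, sub_self, zero_sub, norm_neg] at h4
    have h6 := hbound (x - y)
    have h7 : (K : ℝ) * ‖L (x - y)‖ ≤ K * (1 / (2 * K) * ‖x - y‖) :=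
      mul_le_mul_of_nonneg_left h4 hK'.le
    have h8 : (K : ℝ) * (1 / (2 * K) * ‖x - y‖) = ‖x - y‖ / 2 := by
      field_simp
    have h9 : ‖x - y‖ = 0 := by
      have := norm_nonneg (x - y)
      linarith
    exact sub_eq_zero.mp (norm_eq_zero.mp h9)

/-- the polynomials are algebraically independent -/
lemma family_algInd {r : ℕ} {p : Fin r → MvPolynomial (Fin r) ℂ}
    (hp : ∀ i j, MvPolynomial.coeff (Finsupp.single j 1) (p i) = if j = i then 1 else 0) :
    AlgebraicIndependent ℂ p := by
  classical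
  rw [algebraicIndependent_iff]
  intro Q hQ
  have h1 : HasStrictFDerivAt (fun (x : Fin r → ℂ) (i : Fin r) => MvPolynomial.eval x (p i))
      ((ContinuousLinearEquiv.refl ℂ (Fin r → ℂ) : (Fin r → ℂ) ≃L[ℂ] (Fin r → ℂ)) :
        (Fin r → ℂ) →L[ℂ] (Fin r → ℂ)) 0 := by
    rw [hasStrictFDerivAt_pi']
    intro i
    refine (strict_eval (p i)).congr_fderiv ?_
    refine ContinuousLinearMap.ext fun x => ?_
    rw [linPart_apply]
    simp [hp]
  have h2 := h1.map_nhds_eq_of_equiv
  have h3 : ∀ x : Fin r → ℂ,
      MvPolynomial.eval (fun i => MvPolynomial.eval x (p i)) Q = 0 := by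
    intro x
    have h4 := congrArg (MvPolynomial.eval x) hQ
    rw [map_zero, MvPolynomial.aeval_def, MvPolynomial.hom_eval₂] at h4
    rw [← h4, MvPolynomial.eval, MvPolynomial.coe_eval₂Hom]
    congr 1
    ext z
    simp
  have h5 : ∀ᶠ w in 𝓝 (fun i => MvPolynomial.eval (0 : Fin r → ℂ) (p i)),
      MvPolynomial.eval w Q = 0 := by
    rw [← h2, Filter.eventually_map]
    exact Eventually.of_forall h3
  obtain ⟨ε, hε, h6⟩ := Metric.eventually_nhds_iff_ball.mp h5
  refine MvPolynomial.funext_set
    (fun i => Metric.ball (MvPolynomial.eval (0 : Fin r → ℂ) (p i)) ε)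
    (fun i => ?_) fun x hx => ?_
  · exact infinite_of_mem_nhds _ (Metric.ball_mem_nhds _ hε)
  · rw [map_zero]
    apply h6
    rw [mem_ball_iff_norm, pi_norm_lt_iff hε]
    intro i
    have := hx i (mem_univ i)
    rwa [mem_ball_iff_norm] at this

/-- generic finiteness of the fibres -/
theorem family_fibre {r : ℕ} {p : Fin r → MvPolynomial (Fin r) ℂ}
    (hp : ∀ i j, MvPolynomial.coeff (Finsupp.single j 1) (p i) = if j = i then 1 else 0) :
    ∃ G : MvPolynomial (Fin r) ℂ, G ≠ 0 ∧ ∀ y, MvPolynomial.eval y G ≠ 0 →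
      {x : Fin r → ℂ | ∀ i, MvPolynomial.eval x (p i) = MvPolynomial.eval y (p i)}.Finite := by
  classical
  have hind := family_algInd hp
  have hbasis : IsTranscendenceBasis ℂ p := by
    refine hind.isTranscendenceBasis_of_trdeg_le_of_finite ?_
    rw [MvPolynomial.trdeg_of_isDomain]
    simp
  have halg := hbasis.isAlgebraic
  have hex : ∀ j : Fin r, ∃ f : Polynomial (Algebra.adjoin ℂ (range p)), f ≠ 0 ∧
      Polynomial.aeval (MvPolynomial.X j : MvPolynomial (Fin r) ℂ) f = 0 := fun j =>
    halg.isAlgebraic (MvPolynomial.X j)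
  choose f hf0 hf using hex
  -- evaluation is constant on the fibres
  have hconst : ∀ x y : Fin r → ℂ,
      (∀ i, MvPolynomial.eval x (p i) = MvPolynomial.eval y (p i)) →
      ∀ b : Algebra.adjoin ℂ (range p), MvPolynomial.eval x (b : MvPolynomial (Fin r) ℂ)
        = MvPolynomial.eval y (b : MvPolynomial (Fin r) ℂ) := by
    intro x y hxy b
    have h1 : ∀ q ∈ Algebra.adjoin ℂ (range p), MvPolynomial.eval x q = MvPolynomial.eval y q := by
      intro q hq
      induction hq using Algebra.adjoin_induction with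
      | mem q hq =>
        obtain ⟨i, rfl⟩ := hq
        exact hxy i
      | algebraMap a => simp [MvPolynomial.algebraMap_eq]
      | add q q' _ _ h h' => rw [map_add, map_add, h, h']
      | mul q q' _ _ h h' => rw [map_mul, map_mul, h, h']
    exact h1 b b.2
  refine ⟨∏ j, ((f j).leadingCoeff : MvPolynomial (Fin r) ℂ), ?_, fun y hy => ?_⟩
  · rw [Finset.prod_ne_zero_iff]
    intro j _ h
    exact hf0 j (Polynomial.leadingCoeff_eq_zero.mp (Subtype.ext h))
  · rw [map_prod, Finset.prod_ne_zero_iff] at hy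
    set ev : Algebra.adjoin ℂ (range p) →+* ℂ :=
      (MvPolynomial.eval y).comp (Algebra.adjoin ℂ (range p)).subtype with hev
    have hg0 : ∀ j, (f j).map ev ≠ 0 := by
      intro j h
      have h1 := congrArg (fun g => Polynomial.coeff g (f j).natDegree) h
      simp only [Polynomial.coeff_map, Polynomial.coeff_zero] at h1
      exact hy j (Finset.mem_univ j) h1
    refine (Set.Finite.pi' (fun j => ((f j).map ev).roots.toFinset.finite_toSet)).subset
      fun x hx j => ?_
    rw [Finset.mem_coe, Multiset.mem_toFinset, Polynomial.mem_roots (hg0 j), Polynomial.IsRoot]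
    have h1 := congrArg (MvPolynomial.eval x) (hf j)
    rw [map_zero, Polynomial.aeval_def, Polynomial.hom_eval₂, MvPolynomial.eval_X] at h1
    rw [Polynomial.eval_map]
    rw [← h1]
    congr 1
    ext b
    · exact (hconst x y hx b).symm

end FracScat
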