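import Pool.Agent.Lib_helper85.FA.A4

/-! # Moments along the lines parallel to `e` -/

open MeasureTheory Filter Complex Set Topology
open scoped Real SchwartzMap LineDeriv ContDiff NNReal FourierTransform RealInnerProductSpace

namespace FracScat

section

variable {E : Type} [NormedAddCommGroup E] [InnerProductSpace ℝ E] [FiniteDimensional ℝ E]
  [MeasurableSpace E] [BorelSpace E]

/-- vanishing coefficients up to order `m - 1` give flatness of order `m` -/
theorem flat_of_orders {e : E} {W : 𝓢(E, ℂ)} {ξ' : E} {m : ℕ}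
    (H : ∀ J < m, ∃ (β : ℕ → ℂ) (D h₂ : ℝ), 0 < h₂ ∧ 0 ≤ D ∧
      (∀ h, 0 < h → h ≤ h₂ → ‖(𝓕 W : 𝓢(E, ℂ)) (ξ' + tauf ‖ξ'‖ h • e)
        - ∑ j ∈ Finset.range (J + 1), (h : ℂ) ^ j * β j‖ ≤ D * h ^ (J + 1)) ∧ β J = 0) :
    ∀ J : ℕ, J ≤ m → ∃ h₁, 0 < h₁ ∧ ∃ C, 0 ≤ C ∧ ∀ h, 0 < h → h ≤ h₁ →
      ‖(𝓕 W : 𝓢(E, ℂ)) (ξ' + tauf ‖ξ'‖ h • e)‖ ≤ C * h ^ J := by
  intro J
  induction J with
  | zero =>
    intro _
    obtain ⟨B, hB0, hB⟩ := schwartz_bdd (𝓕 W : 𝓢(E, ℂ))
    exact ⟨1, one_pos, B, hB0, fun h _ _ => by simpa using hB _⟩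
  | succ J ih =>
    intro hJm
    obtain ⟨h₁, hh₁, C, hC0, hC⟩ := ih (by omega)
    obtain ⟨β, D, h₂, hh₂, hD0, hD, hβJ⟩ := H J (by omega)
    have h3 : 0 < min (min h₁ h₂) 1 := lt_min (lt_min hh₁ hh₂) one_pos
    have key : ∀ h, 0 < h → h ≤ min (min h₁ h₂) 1 →
        ‖∑ j ∈ Finset.range (J + 1), β j * ((h ^ ((fun j : ℕ => (j : ℝ)) j) : ℝ) : ℂ)‖
          ≤ (C + D) * h ^ (J : ℝ) := by
      intro h hh hle
      have hl1 : h ≤ h₁ := hle.trans ((min_le_left _ _).trans (min_le_left _ _))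
      have hl2 : h ≤ h₂ := hle.trans ((min_le_left _ _).trans (min_le_right _ _))
      have hl3 : h ≤ 1 := hle.trans (min_le_right _ _)
      have e1 : ∑ j ∈ Finset.range (J + 1), β j * ((h ^ ((fun j : ℕ => (j : ℝ)) j) : ℝ) : ℂ)
          = (𝓕 W : 𝓢(E, ℂ)) (ξ' + tauf ‖ξ'‖ h • e) -
            ((𝓕 W : 𝓢(E, ℂ)) (ξ' + tauf ‖ξ'‖ h • e)
              - ∑ j ∈ Finset.range (J + 1), (h : ℂ) ^ j * β j) := by
        rw [sub_sub_cancel]
        refine Finset.sum_congr rfl fun j _ => ?_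
        rw [Real.rpow_natCast]
        push_cast
        ring
      rw [e1]
      refine (norm_sub_le _ _).trans ?_
      rw [add_mul, Real.rpow_natCast]
      refine add_le_add (hC h hh hl1) ((hD h hh hl2).trans ?_)
      have : h ^ (J + 1) ≤ h ^ J := pow_le_pow_of_le_one hh.le hl3 (Nat.le_succ J)
      gcongr
    have h4 := coeff_zero (Finset.range (J + 1)) (fun j : ℕ => (j : ℝ))
      (fun a _ b _ h => by exact_mod_cast (show (a : ℝ) = b from h)) β h3 key
    have h5 : ∀ j ∈ Finset.range (J + 1), β j = 0 := by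
      intro j hj
      rcases Nat.lt_succ_iff_lt_or_eq.mp (Finset.mem_range.mp hj) with h | h
      · exact h4 j hj (by exact_mod_cast h)
      · rw [h]; exact hβJ
    refine ⟨h₂, hh₂, D, hD0, fun h hh hle => ?_⟩
    have h6 := hD h hh hle
    have h7 : ∑ j ∈ Finset.range (J + 1), (h : ℂ) ^ j * β j = 0 :=
      Finset.sum_eq_zero fun j hj => by rw [h5 j hj, mul_zero]
    rwa [h7, sub_zero] at h6

/-- if `G` is flat of order `m` along the curve, its `e`-derivatives of order `< m` vanish -/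
lemma derE_eq_zero_fin (G : 𝓢(E, ℂ)) (e ξ' : E) {τ : ℝ → ℝ} {A A' : ℝ} (hA' : 0 < A') {m : ℕ}
    (hflat : ∀ J : ℕ, J ≤ m → ∃ h₁, 0 < h₁ ∧ ∃ C, 0 ≤ C ∧ ∀ h, 0 < h → h ≤ h₁ →
      A' * h ≤ τ h ∧ τ h ≤ A * h ∧ ‖G (ξ' + τ h • e)‖ ≤ C * h ^ J) (l : ℕ) (hl : l < m) :
    derE e G l ξ' = 0 := by
  induction l using Nat.strong_induction_on with
  | _ l ih =>
    obtain ⟨B, hB0, hB⟩ := schwartz_bdd (derE e G (l + 1))
    obtain ⟨h₁, hh₁, C, hC0, hC⟩ := hflat (l + 1) (by omega)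
    have hIoc : Ioc (0 : ℝ) h₁ ∈ 𝓝[>] (0 : ℝ) := Ioc_mem_nhdsGT hh₁
    have hfac : (0 : ℝ) < (l.factorial : ℝ) := by exact_mod_cast Nat.factorial_pos l
    have key : ∀ h, 0 < h → h ≤ h₁ → ‖derE e G l ξ'‖ ≤
        ((l.factorial : ℝ) * (C + B * A ^ (l + 1)) / A' ^ l) * h := by
      intro h hh hle
      obtain ⟨h1, h2, h3⟩ := hC h hh hle
      have hτ0 : 0 < τ h := lt_of_lt_of_le (by positivity) h1
      have h4 := taylor_bound_seq (l + 1) (fun l τ => derE e G l (ξ' + τ • e))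
        (fun l τ => hasDerivAt_line G e ξ' l τ) (fun τ => hB (ξ' + τ • e)) (τ h)
      simp only [zero_smul, add_zero] at h4
      rw [Finset.sum_range_succ, Finset.sum_eq_zero (fun l' hl' => by
        rw [ih l' (Finset.mem_range.mp hl') ((Finset.mem_range.mp hl').trans hl), mul_zero]),
        zero_add] at h4
      have h5 : ‖(((τ h : ℝ) : ℂ)) ^ l / (l.factorial : ℂ) * derE e G l ξ'‖
          ≤ C * h ^ (l + 1) + B * |τ h| ^ (l + 1) := by
        have h6 : (((τ h : ℝ) : ℂ)) ^ l / (l.factorial : ℂ) * derE e G l ξ'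
            = derE e G 0 (ξ' + τ h • e) - (derE e G 0 (ξ' + τ h • e)
              - (((τ h : ℝ) : ℂ)) ^ l / (l.factorial : ℂ) * derE e G l ξ') := by ring
        rw [h6]
        exact (norm_sub_le _ _).trans (add_le_add h3 h4)
      rw [norm_mul, norm_div, norm_pow, Complex.norm_real, Real.norm_of_nonneg hτ0.le,
        Complex.norm_natCast, abs_of_pos hτ0] at h5
      have h7 : (A' * h) ^ l / (l.factorial : ℝ) * ‖derE e G l ξ'‖
          ≤ (C + B * A ^ (l + 1)) * h ^ (l + 1) := by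
        calc _ ≤ τ h ^ l / (l.factorial : ℝ) * ‖derE e G l ξ'‖ := by gcongr
          _ ≤ C * h ^ (l + 1) + B * τ h ^ (l + 1) := h5
          _ ≤ C * h ^ (l + 1) + B * (A * h) ^ (l + 1) := by gcongr
          _ = _ := by rw [mul_pow]; ring
      have hAl : 0 < A' ^ l := by positivity
      have hhl : 0 < h ^ l := by positivity
      rw [div_mul_eq_mul_div, le_div_iff₀ hAl]
      rw [mul_pow, div_mul_eq_mul_div, div_le_iff₀ hfac, pow_succ] at h7
      have h8 : (‖derE e G l ξ'‖ * A' ^ l) * h ^ l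
          ≤ ((l.factorial : ℝ) * (C + B * A ^ (l + 1)) * h) * h ^ l := by
        calc _ = A' ^ l * h ^ l * ‖derE e G l ξ'‖ := by ring
          _ ≤ _ := h7
          _ = _ := by ring
      exact le_of_mul_le_mul_right h8 hhl
    have hlim : Tendsto (fun h : ℝ => ((l.factorial : ℝ) * (C + B * A ^ (l + 1)) / A' ^ l) * h)
        (𝓝[>] 0) (𝓝 0) := by
      have : Tendsto (fun h : ℝ => ((l.factorial : ℝ) * (C + B * A ^ (l + 1)) / A' ^ l) * h)
          (𝓝 0) (𝓝 (((l.factorial : ℝ) * (C + B * A ^ (l + 1)) / A' ^ l) * 0)) :=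
        tendsto_id.const_mul _
      rw [mul_zero] at this
      exact this.mono_left nhdsWithin_le_nhds
    have h9 : ‖derE e G l ξ'‖ ≤ 0 := by
      refine ge_of_tendsto hlim ?_
      filter_upwards [hIoc] with h hh
      exact key h hh.1 hh.2
    exact norm_le_zero_iff.mp h9

/-- the `e`-derivatives of the Fourier transform, exactly -/
lemma derE_fourier_exact (W : 𝓢(E, ℂ)) (e : E) (l : ℕ) :
    ∃ Wl : 𝓢(E, ℂ), derE e (𝓕 W) l = 𝓕 Wl ∧
      ∀ x, Wl x = (-(2 * π * I) * ((⟪x, e⟫ : ℝ) : ℂ)) ^ l * W x := by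
  induction l with
  | zero => exact ⟨W, rfl, fun x => by simp⟩
  | succ l ih =>
    obtain ⟨Wl, h1, h2⟩ := ih
    refine ⟨-(2 * π * I) • SchwartzMap.smulLeftCLM ℂ (inner ℝ · e) Wl, ?_, fun x => ?_⟩
    · change ∂_{e} (derE e (𝓕 W) l) = _
      rw [h1, SchwartzMap.lineDerivOp_fourier_eq]
    · have hx : (-(2 * π * I) • SchwartzMap.smulLeftCLM ℂ (inner ℝ · e) Wl : 𝓢(E, ℂ)) x
          = -(2 * π * I) * (((⟪x, e⟫ : ℝ) : ℂ) * Wl x) := by
        rw [smul_apply, SchwartzMap.smulLeftCLM_apply_apply (by fun_prop)]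
        simp
      rw [hx, h2]
      ring

/-- Equal data: the `e`-derivatives of order `j` of the difference of the Fourier transforms
vanish on the hyperplane, for all `j` below the first collision. -/
theorem same_derE {s : ℝ} (hs : 1 / 2 < s) {e : E} (he : ‖e‖ = 1)
    (hdim : 2 ≤ Module.finrank ℝ E) {V V' : 𝓢(E, ℂ)}
    (hV : HasCompactSupport V) (hV' : HasCompactSupport V') (hsame : SameData s e V V') {j : ℕ}
    (hj : ∀ n a : ℕ, n ≠ 0 → (n : ℝ) * (2 * s - 1) = a → j < a) {ξ' : E} (hperp : ⟪e, ξ'⟫ = 0) :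
    derE e (𝓕 (V - V')) j ξ' = 0 := by
  classical
  -- the case `ξ' ≠ 0`
  have hmain : ∀ ξ' : E, ξ' ≠ 0 → ⟪e, ξ'⟫ = 0 → derE e (𝓕 (V - V')) j ξ' = 0 := by
    intro ξ' hξ' hperp
    have hapos : 0 < ‖ξ'‖ := norm_pos_iff.mpr hξ'
    set v : Fin 2 → 𝓢(E, ℂ) := ![V, V'] with hv
    have hvc : ∀ i, HasCompactSupport (v i) := by
      intro i
      fin_cases i
      · exact hV
      · exact hV'
    have hflat := flat_of_orders (e := e) (W := V - V') (ξ' := ξ') (m := j + 1) (fun J hJ => ?_)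
    · refine derE_eq_zero_fin (𝓕 (V - V')) e ξ' (τ := tauf ‖ξ'‖) (A := ‖ξ'‖ ^ 2)
        (A' := ‖ξ'‖ ^ 2 / 2) (by positivity) (m := j + 1) (fun J hJ => ?_) j (Nat.lt_succ_self j)
      obtain ⟨h₁, hh₁, C, hC0, hC⟩ := hflat J hJ
      refine ⟨h₁, hh₁, C, hC0, fun h hh hle => ⟨?_, tauf_upper hh.le, hC h hh hle⟩⟩
      have := tauf_lower (a := ‖ξ'‖) hh.le
      linarith
    · obtain ⟨p, β, D, hD0, hD, -, -, hpE, hlinear⟩ := order_poly hs he hvc hperp J
      have hx : fam v ![1, 0] = V := by ext z; simp [fam_apply, hv]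
      have hy : fam v ![0, 1] = V' := by ext z; simp [fam_apply, hv]
      have h1 := hpE ![1, 0] ![0, 1] (by rw [hx, hy]; exact hsame)
      have hno : ∀ n j' : ℕ, n ≠ 0 → (n : ℝ) * (2 * s - 1) + j' ≠ J := by
        intro n j' hn hnj
        have hn' : (0 : ℝ) < n := by exact_mod_cast Nat.pos_of_ne_zero hn
        have h5 : (0 : ℝ) < (n : ℝ) * (2 * s - 1) := mul_pos hn' (by linarith)
        have hjJ : j' ≤ J := by
          have : (j' : ℝ) ≤ J := by linarith
          exact_mod_cast this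
        have h6 := hj n (J - j') hn (by rw [Nat.cast_sub hjJ]; linarith)
        omega
      have h3 := hlinear hno ![1, 0]
      have h4 := hlinear hno ![0, 1]
      simp at h3 h4
      refine ⟨fun i => β 0 i - β 1 i, 2 * D, hz s ‖ξ'‖, hz_pos hs (norm_nonneg _),
        by positivity, fun h hh hle => ?_, ?_⟩
      · have h3 := hD 0 h hh hle
        have h4 := hD 1 h hh hle
        have e1 : (𝓕 (V - V') : 𝓢(E, ℂ)) (ξ' + tauf ‖ξ'‖ h • e)
            - ∑ j ∈ Finset.range (J + 1), (h : ℂ) ^ j * (β 0 j - β 1 j)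
            = ((𝓕 (v 0) : 𝓢(E, ℂ)) (ξ' + tauf ‖ξ'‖ h • e)
                - ∑ j ∈ Finset.range (J + 1), (h : ℂ) ^ j * β 0 j)
              - ((𝓕 (v 1) : 𝓢(E, ℂ)) (ξ' + tauf ‖ξ'‖ h • e)
                - ∑ j ∈ Finset.range (J + 1), (h : ℂ) ^ j * β 1 j) := by
          have h5 : (𝓕 (V - V') : 𝓢(E, ℂ)) = 𝓕 V - 𝓕 V' := by
            rw [sub_eq_add_neg, sub_eq_add_neg, FourierTransform.fourier_add,
              FourierTransform.fourier_neg]
          rw [h5]
          have h6 : (v 0) = V := rfl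
          have h7 : (v 1) = V' := rfl
          rw [h6, h7]
          simp only [mul_sub, Finset.sum_sub_distrib]
          rw [sub_apply]
          ring
        rw [e1]
        refine (norm_sub_le _ _).trans ?_
        linarith
      · show β 0 J - β 1 J = 0
        rw [← h3, ← h4, h1, sub_self]
  -- continuity at `0`
  by_cases hξ' : ξ' = 0
  · obtain ⟨w, hw0, hw⟩ := exists_perp hdim e
    have h5 : Continuous (fun t : ℝ => derE e (𝓕 (V - V')) j (ξ' + t • w)) := by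
      have := (derE e (𝓕 (V - V')) j).continuous
      fun_prop
    have h6 := h5.tendsto 0
    rw [zero_smul, add_zero] at h6
    have h7 := h6.mono_left (nhdsWithin_le_nhds (s := Ioi (0 : ℝ)))
    refine tendsto_nhds_unique h7 (tendsto_const_nhds.congr' ?_)
    filter_upwards [self_mem_nhdsWithin] with t ht
    have ht' : (0 : ℝ) < t := ht
    symm
    rw [hξ', zero_add]
    exact hmain _ (smul_ne_zero ht'.ne' hw0) (by rw [real_inner_smul_right, hw, mul_zero])
  · exact hmain ξ' hξ' hperp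

end

end FracScat
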