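import Pool.Agent.Lib_helper85.FA.A6

/-! # From the hyperplane to the integrals along lines -/

open MeasureTheory Filter Complex Set Topology
open scoped Real SchwartzMap LineDeriv ContDiff NNReal FourierTransform RealInnerProductSpace

namespace FracScat

section

variable {E : Type} [NormedAddCommGroup E] [InnerProductSpace ℝ E] [FiniteDimensional ℝ E]

/-- an isometry from a Euclidean space onto the orthogonal complement of `e` -/
lemma exists_perp_isometry {e : E} (he : ‖e‖ = 1) :
    ∃ (n : ℕ) (ι : EuclideanSpace ℝ (Fin n) →ₗᵢ[ℝ] E), n + 1 = Module.finrank ℝ E ∧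
      ∀ v, ⟪e, ι v⟫ = 0 := by
  set K : Submodule ℝ E := ℝ ∙ e with hK
  have he0 : e ≠ 0 := by
    intro h; rw [h, norm_zero] at he; exact zero_ne_one he
  have h1 : Module.finrank ℝ K = 1 := finrank_span_singleton he0
  have h2 := Submodule.finrank_add_finrank_orthogonal K
  refine ⟨Module.finrank ℝ Kᗮ, Kᗮ.subtypeₗᵢ.comp
    (stdOrthonormalBasis ℝ Kᗮ).repr.symm.toLinearIsometry, by omega, fun v => ?_⟩
  exact Submodule.mem_orthogonal_singleton_iff_inner_right.mp
    ((stdOrthonormalBasis ℝ Kᗮ).repr.symm v).2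

/-- the splitting of `E` into the line of `e` and its orthogonal complement -/
lemma exists_split {e : E} (he : ‖e‖ = 1) {n : ℕ} (ι : EuclideanSpace ℝ (Fin n) →ₗᵢ[ℝ] E)
    (hn : n + 1 = Module.finrank ℝ E) (hι : ∀ v, ⟪e, ι v⟫ = 0) :
    ∃ Φ : WithLp 2 (ℝ × EuclideanSpace ℝ (Fin n)) ≃ₗᵢ[ℝ] E, ∀ q, Φ q = ι q.snd + q.fst • e := by
  let L : WithLp 2 (ℝ × EuclideanSpace ℝ (Fin n)) →ₗ[ℝ] E :=
    { toFun := fun q => ι q.snd + q.fst • e
      map_add' := fun q q' => by
        rw [WithLp.add_fst, WithLp.add_snd, map_add, add_smul]; abel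
      map_smul' := fun c q => by
        rw [WithLp.smul_fst, WithLp.smul_snd, map_smul, smul_eq_mul, mul_smul, smul_add]
        rfl }
  have hL : ∀ q, L q = ι q.snd + q.fst • e := fun _ => rfl
  have hnorm : ∀ q, ‖L q‖ = ‖q‖ := by
    intro q
    rw [← sq_eq_sq₀ (norm_nonneg _) (norm_nonneg _), hL, WithLp.prod_norm_sq_eq_of_L2,
      norm_add_sq_real, real_inner_smul_right, real_inner_comm, hι, norm_smul, he, mul_one,
      ι.norm_map]
    ring
  have hrank : Module.finrank ℝ (WithLp 2 (ℝ × EuclideanSpace ℝ (Fin n))) = Module.finrank ℝ E := by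
    rw [← hn, (WithLp.linearEquiv 2 ℝ (ℝ × EuclideanSpace ℝ (Fin n))).finrank_eq]
    simp [add_comm]
  refine ⟨LinearIsometry.toLinearIsometryEquiv ⟨L, hnorm⟩ hrank, fun q => rfl⟩

variable [MeasurableSpace E] [BorelSpace E]

lemma integral_split {e : E} {n : ℕ} {ι : EuclideanSpace ℝ (Fin n) →ₗᵢ[ℝ] E}
    {Φ : WithLp 2 (ℝ × EuclideanSpace ℝ (Fin n)) ≃ₗᵢ[ℝ] E} (hΦ : ∀ q, Φ q = ι q.snd + q.fst • e)
    {f : E → ℂ} (hf : Integrable f) :
    Integrable (fun v : EuclideanSpace ℝ (Fin n) => ∫ t : ℝ, f (ι v + t • e)) ∧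
      ∫ v : EuclideanSpace ℝ (Fin n), ∫ t : ℝ, f (ι v + t • e) = ∫ x, f x := by
  have h1 : MeasurePreserving (fun q : ℝ × EuclideanSpace ℝ (Fin n) => Φ (WithLp.toLp 2 q)) :=
    Φ.measurePreserving.comp (WithLp.volume_preserving_toLp ℝ (EuclideanSpace ℝ (Fin n)))
  have hemb : MeasurableEmbedding
      (fun q : ℝ × EuclideanSpace ℝ (Fin n) => Φ (WithLp.toLp 2 q)) :=
    (Φ.toMeasurableEquiv.measurableEmbedding).comp
      (MeasurableEquiv.toLp 2 (ℝ × EuclideanSpace ℝ (Fin n))).measurableEmbedding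
  have h2 : ∀ q : ℝ × EuclideanSpace ℝ (Fin n),
      Φ (WithLp.toLp 2 q) = ι q.2 + q.1 • e := fun q => hΦ _
  have h3 : Integrable (fun q : ℝ × EuclideanSpace ℝ (Fin n) => f (ι q.2 + q.1 • e)) := by
    have := (h1.integrable_comp_emb hemb (g := f)).mpr hf
    refine this.congr (Eventually.of_forall fun q => ?_)
    simp only [Function.comp_apply, h2]
  refine ⟨h3.integral_prod_right, ?_⟩
  rw [← h1.integral_comp hemb f]
  simp only [h2]
  exact (integral_prod_symm _ h3).symm

/-- If `𝓕 g` vanishes on the hyperplane orthogonal to `e`, the integrals of `g` along the lines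
parallel to `e` vanish. -/
theorem line_integral_zero {e : E} (he : ‖e‖ = 1) {g : 𝓢(E, ℂ)} (hg : HasCompactSupport g)
    (h0 : ∀ ξ' : E, ⟪e, ξ'⟫ = 0 → (𝓕 g : 𝓢(E, ℂ)) ξ' = 0) {x : E} (hx : ⟪e, x⟫ = 0) :
    ∫ t : ℝ, g (x + t • e) = 0 := by
  obtain ⟨n, ι, hn, hι⟩ := exists_perp_isometry he
  obtain ⟨Φ, hΦ⟩ := exists_split he ι hn hι
  set F : EuclideanSpace ℝ (Fin n) → ℂ := fun v => ∫ t : ℝ, g (ι v + t • e) with hF
  have hFint : Integrable F := (integral_split hΦ g.integrable).1
  obtain ⟨R, hR⟩ := exists_radius hg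
  have hcont : Continuous F := by
    have h1 : F = fun v => ∫ t in Icc (-|R|) |R|, g (ι v + t • e) := by
      funext v
      rw [hF]
      simp only
      rw [setIntegral_eq_integral_of_forall_compl_eq_zero]
      intro t ht
      apply hR
      rw [mem_Icc, ← abs_le, not_le] at ht
      have h2 : |t| ≤ ‖ι v + t • e‖ := by
        have h3 : ⟪e, ι v + t • e⟫ = t := by
          rw [inner_add_right, hι, real_inner_smul_right, real_inner_self_eq_norm_sq, he]; ring
        have h4 := abs_real_inner_le_norm e (ι v + t • e)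
        rwa [h3, he, one_mul] at h4
      exact (le_abs_self R).trans_lt (ht.trans_le h2)
    rw [h1]
    refine continuous_parametric_integral_of_continuous
      (f := fun (v : EuclideanSpace ℝ (Fin n)) (t : ℝ) => g (ι v + t • e)) ?_ isCompact_Icc
    have h2 := g.continuous
    have h3 := ι.continuous
    have h4 : Continuous fun q : EuclideanSpace ℝ (Fin n) × ℝ => ι q.1 + q.2 • e :=
      (h3.comp continuous_fst).add (continuous_snd.smul continuous_const)
    exact h2.comp h4
  have hFour : 𝓕 F = 0 := by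
    funext η
    rw [Real.fourier_eq, Pi.zero_apply]
    have h1 : ∀ v : EuclideanSpace ℝ (Fin n), 𝐞 (-⟪v, η⟫) • F v
        = ∫ t : ℝ, 𝐞 (-⟪ι v + t • e, ι η⟫) • g (ι v + t • e) := by
      intro v
      rw [hF]
      simp only [Circle.smul_def, smul_eq_mul]
      rw [← integral_const_mul]
      refine integral_congr_ae (Eventually.of_forall fun t => ?_)
      simp only
      rw [inner_add_left, ι.inner_map_map, real_inner_smul_left, hι, mul_zero, add_zero]
    simp_rw [h1]
    have h2 := (integral_split hΦ (f := fun x => 𝐞 (-⟪x, ι η⟫) • g x)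
      ((Real.fourierIntegral_convergent_iff (ι η)).mpr g.integrable)).2
    rw [h2, ← Real.fourier_eq, ← SchwartzMap.fourier_coe]
    exact h0 _ (hι η)
  have hzero : F = 0 := by
    have h1 := hcont.fourierInv_fourier_eq hFint (by rw [hFour]; exact integrable_zero _ _ _)
    rw [← h1, hFour]
    funext v
    simp [Real.fourierInv_eq]
  obtain ⟨q, hq⟩ := Φ.surjective x
  rw [hΦ] at hq
  have h5 : q.fst = 0 := by
    have h6 : ⟪e, ι q.snd + q.fst • e⟫ = ⟪e, x⟫ := by rw [hq]
    rw [inner_add_right, hι, real_inner_smul_right, real_inner_self_eq_norm_sq, he, hx] at h6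
    linarith
  rw [h5, zero_smul, add_zero] at hq
  have h7 := congrFun hzero q.snd
  rw [hF] at h7
  simp only [Pi.zero_apply] at h7
  rwa [hq] at h7

/-- **Moments below the first collision are determined.** -/
theorem same_moments {s : ℝ} (hs : 1 / 2 < s) {e : E} (he : ‖e‖ = 1)
    (hdim : 2 ≤ Module.finrank ℝ E) {V V' : 𝓢(E, ℂ)}
    (hV : HasCompactSupport V) (hV' : HasCompactSupport V') (hsame : SameData s e V V') {j : ℕ}
    (hj : ∀ n a : ℕ, n ≠ 0 → (n : ℝ) * (2 * s - 1) = a → j < a) {x : E} (hx : ⟪e, x⟫ = 0) :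
    ∫ t : ℝ, (t : ℂ) ^ j * V (x + t • e) = ∫ t : ℝ, (t : ℂ) ^ j * V' (x + t • e) := by
  obtain ⟨Wj, h1, h2⟩ := derE_fourier_exact (V - V') e j
  have hWc : HasCompactSupport Wj := by
    refine HasCompactSupport.intro (K := tsupport V ∪ tsupport V') (hV.isCompact.union hV'.isCompact) ?_
    intro z hz
    have h3 : z ∉ tsupport V := fun h => hz (Or.inl h)
    have h4 : z ∉ tsupport V' := fun h => hz (Or.inr h)
    rw [h2, sub_apply, image_eq_zero_of_notMem_tsupport h3, image_eq_zero_of_notMem_tsupport h4]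
    ring
  have h3 := line_integral_zero he hWc (fun ξ' hξ' => by
    rw [← h1]; exact same_derE hs he hdim hV hV' hsame hj hξ') hx
  have hin : ∀ t : ℝ, ⟪x + t • e, e⟫ = t := by
    intro t
    rw [inner_add_left, real_inner_comm, hx, real_inner_smul_left, real_inner_self_eq_norm_sq, he]
    ring
  have h4 : ∀ t : ℝ, Wj (x + t • e) = (-(2 * π * I)) ^ j *
      ((t : ℂ) ^ j * V (x + t • e) - (t : ℂ) ^ j * V' (x + t • e)) := by
    intro t
    rw [h2, hin, sub_apply]
    ring
  have hint : ∀ U : 𝓢(E, ℂ), HasCompactSupport U →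
      Integrable (fun t : ℝ => (t : ℂ) ^ j * U (x + t • e)) := by
    intro U hU
    obtain ⟨R, hR⟩ := exists_radius hU
    refine Continuous.integrable_of_hasCompactSupport ?_ ?_
    · have := U.continuous
      fun_prop
    · refine HasCompactSupport.intro (K := Icc (-|R|) |R|) isCompact_Icc fun t ht => ?_
      rw [mem_Icc, ← abs_le, not_le] at ht
      have h5 : |t| ≤ ‖x + t • e‖ := by
        have h6 := abs_real_inner_le_norm (x + t • e) e
        rwa [hin, he, mul_one] at h6
      rw [hR _ ((le_abs_self R).trans_lt (ht.trans_le h5)), mul_zero]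
  simp_rw [h4] at h3
  rw [integral_const_mul, integral_sub (hint V hV) (hint V' hV')] at h3
  have h5 : (-(2 * (π : ℂ) * I)) ^ j ≠ 0 := by
    apply pow_ne_zero
    rw [neg_ne_zero]
    exact mul_ne_zero (mul_ne_zero two_ne_zero (by exact_mod_cast Real.pi_ne_zero)) I_ne_zero
  exact sub_eq_zero.mp ((mul_eq_zero.mp h3).resolve_left h5)

end

end FracScat
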