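import Pool.Agent.Lib_helper85.FA.A7

/-! # Few sign changes along the lines -/

open MeasureTheory Filter Complex Set Topology
open scoped Real SchwartzMap LineDeriv ContDiff NNReal FourierTransform RealInnerProductSpace

namespace FracScat

/-- vanishing moments and few sign changes -/
lemma sign_moments {w : ℝ → ℝ} (hw : Continuous w) (hc : HasCompactSupport w) {m : ℕ}
    (hm : ∀ j : ℕ, j < m → ∫ t : ℝ, t ^ j * w t = 0) {Q : Polynomial ℝ} (hQ0 : Q ≠ 0)
    (hQ : Q.natDegree < m) (hpos : ∀ t, 0 ≤ Q.eval t * w t) (t : ℝ) : w t = 0 := by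
  have hint : ∀ j : ℕ, Integrable (fun t : ℝ => t ^ j * w t) := fun j =>
    (((continuous_id.pow j).mul hw)).integrable_of_hasCompactSupport hc.mul_left
  have h1 : ∫ t : ℝ, Q.eval t * w t = 0 := by
    have h2 : ∀ t : ℝ, Q.eval t * w t
        = ∑ j ∈ Finset.range (Q.natDegree + 1), Q.coeff j * (t ^ j * w t) := by
      intro t
      rw [Polynomial.eval_eq_sum_range, Finset.sum_mul]
      exact Finset.sum_congr rfl fun j _ => by ring
    simp_rw [h2]
    rw [integral_finsetSum _ fun j _ => (hint j).const_mul _]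
    refine Finset.sum_eq_zero fun j hj => ?_
    rw [integral_const_mul, hm j (lt_of_lt_of_le (Finset.mem_range.mp hj) hQ), mul_zero]
  have hcont : Continuous (fun t : ℝ => Q.eval t * w t) := Q.continuous.mul hw
  have h3 : ∀ t, Q.eval t * w t = 0 := by
    have hi : Integrable (fun t : ℝ => Q.eval t * w t) :=
      hcont.integrable_of_hasCompactSupport hc.mul_left
    have h4 := (integral_eq_zero_iff_of_nonneg hpos hi).mp h1
    have h5 := (Continuous.ae_eq_iff_eq (μ := (volume : Measure ℝ)) hcont continuous_const).mp h4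
    exact fun t => congrFun h5 t
  by_contra hne
  have hopen : IsOpen {t | w t ≠ 0} := isOpen_ne_fun hw continuous_const
  have hinf : ({t | w t ≠ 0} : Set ℝ).Infinite :=
    infinite_of_mem_nhds t (hopen.mem_nhds hne)
  apply hinf
  refine (Q.roots.toFinset.finite_toSet).subset fun t ht => ?_
  rw [Finset.mem_coe, Multiset.mem_toFinset, Polynomial.mem_roots hQ0]
  exact (mul_eq_zero.mp (h3 t)).resolve_right ht

end FracScat
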